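import Mathlib
import Pool.Agent.H664.Flow

/-! Maximal solutions and smooth dependence for a vector field with bounded smooth truncations. -/

open Set Filter Topology
open scoped ContDiff

namespace Pool.Agent.H529Z.Bous

noncomputable section

variable {E : Type} [NormedAddCommGroup E] [NormedSpace ℝ E]

/-- `F` agrees on every ball with a bounded Lipschitz smooth field -/
def Trunc (F : E → E) : Prop :=
  ∀ N : ℝ, ∃ (G : E → E) (K M : NNReal), LipschitzWith K G ∧ (∀ x, ‖G x‖ ≤ M) ∧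
    ContDiff ℝ ∞ G ∧ ∀ x, ‖x‖ ≤ N → G x = F x

/-- solution on `[0, τ)` -/
def Sol (F : E → E) (τ : ℝ) (x : ℝ → E) : Prop :=
  ∀ t ∈ Ico 0 τ, HasDerivAt x (F (x t)) t

lemma Sol.mono {F : E → E} {τ τ' : ℝ} {x : ℝ → E} (h : Sol F τ x) (hτ : τ' ≤ τ) : Sol F τ' x :=
  fun t ht => h t ⟨ht.1, ht.2.trans_le hτ⟩

lemma Sol.contOn {F : E → E} {τ : ℝ} {x : ℝ → E} (h : Sol F τ x) {t : ℝ} (ht : t < τ) :
    ContinuousOn x (Icc 0 t) := fun s hs =>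
  (h s ⟨hs.1, hs.2.trans_lt ht⟩).continuousAt.continuousWithinAt

lemma Sol.bdd {F : E → E} {τ : ℝ} {x : ℝ → E} (h : Sol F τ x) {t : ℝ} (ht : t < τ) :
    ∃ M, ∀ s ∈ Icc 0 t, ‖x s‖ ≤ M :=
  isCompact_Icc.exists_bound_of_continuousOn (h.contOn ht)

lemma eq_trunc {F G : E → E} {K : NNReal} (hK : LipschitzWith K G) {N : ℝ}
    (hGF : ∀ x, ‖x‖ ≤ N → G x = F x) {t : ℝ} {x y : ℝ → E}
    (hx : ∀ s ∈ Icc 0 t, HasDerivAt x (F (x s)) s) (hb : ∀ s ∈ Icc 0 t, ‖x s‖ ≤ N)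
    (hy : ∀ s ∈ Icc 0 t, HasDerivAt y (G (y s)) s) (h0 : x 0 = y 0) :
    EqOn x y (Icc 0 t) := by
  refine ODE_solution_unique (v := fun _ => G) (K := K) (fun _ => hK)
    (fun s hs => (hx s hs).continuousAt.continuousWithinAt) ?_
    (fun s hs => (hy s hs).continuousAt.continuousWithinAt) ?_ h0
  · intro s hs
    have hs' : s ∈ Icc 0 t := Ico_subset_Icc_self hs
    rw [hGF _ (hb s hs')]
    exact (hx s hs').hasDerivWithinAt
  · intro s hs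
    exact (hy s (Ico_subset_Icc_self hs)).hasDerivWithinAt

lemma Sol.unique {F : E → E} (hF : Trunc F) {τ : ℝ} {x y : ℝ → E} (hx : Sol F τ x)
    (hy : Sol F τ y) (h0 : x 0 = y 0) : EqOn x y (Ico 0 τ) := by
  intro t ht
  obtain ⟨M1, h1⟩ := hx.bdd ht.2
  obtain ⟨M2, h2⟩ := hy.bdd ht.2
  obtain ⟨G, K, M, hK, -, -, hGF⟩ := hF (max M1 M2)
  refine eq_trunc hK hGF (t := t) (fun s hs => hx s ⟨hs.1, hs.2.trans_lt ht.2⟩)
    (fun s hs => (h1 s hs).trans (le_max_left _ _)) (fun s hs => ?_) h0 ⟨ht.1, le_rfl⟩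
  rw [hGF _ ((h2 s hs).trans (le_max_right _ _))]
  exact hy s ⟨hs.1, hs.2.trans_lt ht.2⟩

/-- a bounded solution extends -/
lemma extend [CompleteSpace E] {F : E → E} (hF : Trunc F) {τ : ℝ} (hτ : 0 ≤ τ) {x : ℝ → E}
    (hx : Sol F τ x) {M : ℝ} (h0 : ‖x 0‖ ≤ M) (hb : ∀ t ∈ Ico 0 τ, ‖x t‖ ≤ M) :
    ∃ τ' > τ, ∃ y : ℝ → E, y 0 = x 0 ∧ Sol F τ' y := by
  obtain ⟨G, K, B, hK, hB, -, hGF⟩ := hF (M + 1)
  obtain ⟨y, hy0, hy⟩ := Pool.Agent.H664.Flow.exists_solution hK hB (x 0)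
  have hyc : Continuous y := continuous_iff_continuousAt.2 fun t => (hy t).continuousAt
  have hxy : EqOn x y (Ico 0 τ) := by
    intro t ht
    refine eq_trunc hK hGF (t := t) (fun s hs => hx s ⟨hs.1, hs.2.trans_lt ht.2⟩)
      (fun s hs => (hb s ⟨hs.1, hs.2.trans_lt ht.2⟩).trans (by linarith))
      (fun s _ => hy s) hy0.symm ⟨ht.1, le_rfl⟩
  have hyτ : ‖y τ‖ ≤ M := by
    rcases hτ.eq_or_lt with h | h
    · rw [← h, hy0]; exact h0
    · have hcl : IsClosed {t | ‖y t‖ ≤ M} := isClosed_le hyc.norm continuous_const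
      have hsub : Ico 0 τ ⊆ {t | ‖y t‖ ≤ M} := fun t ht => by
        show ‖y t‖ ≤ M
        rw [← hxy ht]; exact hb t ht
      have := hcl.closure_subset_iff.2 hsub
      rw [closure_Ico h.ne] at this
      exact this ⟨hτ, le_rfl⟩
  have hev : ∀ᶠ t in 𝓝 τ, ‖y t‖ < M + 1 :=
    hyc.norm.continuousAt.eventually (gt_mem_nhds (by linarith))
  obtain ⟨η, hη, hη'⟩ := Metric.eventually_nhds_iff.1 hev
  refine ⟨τ + η, by linarith, y, hy0, fun t ht => ?_⟩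
  rw [← hGF]
  · exact hy t
  · rcases lt_or_ge t τ with h | h
    · rw [← hxy ⟨ht.1, h⟩]; exact (hb t ⟨ht.1, h⟩).trans (by linarith)
    · refine (hη' ?_).le
      rw [Real.dist_eq, abs_of_nonneg (by linarith)]; linarith [ht.2]

theorem maximal [CompleteSpace E] {F : E → E} (hF : Trunc F) (x0 : E) (Tb : ℝ)
    (hb : ∀ τ x, x 0 = x0 → Sol F τ x → τ ≤ Tb) :
    ∃ T > 0, ∃ x : ℝ → E, x 0 = x0 ∧ Sol F T x ∧ ∀ M, ∃ t ∈ Ico 0 T, M < ‖x t‖ := by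
  classical
  set S : Set ℝ := {τ | 0 < τ ∧ ∃ x : ℝ → E, x 0 = x0 ∧ Sol F τ x} with hS
  have hne : S.Nonempty := by
    obtain ⟨τ', h1, y, h2, h3⟩ := extend hF le_rfl (x := fun _ => x0)
      (fun t ht => absurd ht.2 (not_lt.2 ht.1)) (M := ‖x0‖) le_rfl
      (fun t ht => absurd ht.2 (not_lt.2 ht.1))
    exact ⟨τ', h1, y, h2, h3⟩
  have hbdd : BddAbove S := ⟨Tb, fun τ ⟨_, x, h1, h2⟩ => hb τ x h1 h2⟩
  set T := sSup S with hT
  have hTpos : 0 < T := by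
    obtain ⟨τ, hτ⟩ := hne
    exact hτ.1.trans_le (le_csSup hbdd hτ)
  have hex : ∀ t : ℝ, ∃ τ, ∃ y : ℝ → E, t < T → (max t 0 < τ ∧ y 0 = x0 ∧ Sol F τ y) := by
    intro t
    by_cases ht : t < T
    · obtain ⟨τ, hτ, h1⟩ := exists_lt_of_lt_csSup hne (max_lt ht hTpos)
      obtain ⟨-, y, h2, h3⟩ := hτ
      exact ⟨τ, y, fun _ => ⟨h1, h2, h3⟩⟩
    · exact ⟨0, fun _ => x0, fun h => absurd h ht⟩
  choose τ y hy using hex
  set x : ℝ → E := fun t => y (max t 0) t with hx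
  have hagree : ∀ t0 ∈ Ico 0 T, ∀ t ∈ Ico 0 (τ t0), t < T → x t = y t0 t := by
    intro t0 ht0 t ht htT
    have hm : max t 0 = t := max_eq_left ht.1
    obtain ⟨h1, h2, h3⟩ := hy t htT
    obtain ⟨h4, h5, h6⟩ := hy t0 ht0.2
    show y (max t 0) t = y t0 t
    rw [hm] at h1 ⊢
    exact Sol.unique hF (h3.mono (min_le_left _ (τ t0))) (h6.mono (min_le_right (τ t) _))
      (h2.trans h5.symm) ⟨ht.1, lt_min h1 ht.2⟩
  have hx0 : x 0 = x0 := by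
    show y (max 0 0) 0 = x0
    rw [max_self]; exact (hy 0 hTpos).2.1
  have hsol : Sol F T x := by
    intro t0 ht0
    obtain ⟨h4, h5, h6⟩ := hy t0 ht0.2
    rw [max_eq_left ht0.1] at h4
    have hev : x =ᶠ[𝓝 t0] y t0 := by
      have e1 : ∀ᶠ t in 𝓝 t0, t < τ t0 := gt_mem_nhds h4
      have e2 : ∀ᶠ t in 𝓝 t0, t < T := gt_mem_nhds ht0.2
      rcases ht0.1.eq_or_lt with h | h
      · filter_upwards [e1, e2] with t h1 h2
        rcases le_or_gt 0 t with h3 | h3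
        · exact hagree t0 ht0 t ⟨h3, h1⟩ h2
        · show y (max t 0) t = y t0 t
          rw [max_eq_right h3.le, ← h]
      · filter_upwards [e1, e2, lt_mem_nhds h] with t h1 h2 h3
        exact hagree t0 ht0 t ⟨h3.le, h1⟩ h2
    have := (h6 t0 ⟨ht0.1, h4⟩).congr_of_eventuallyEq hev
    rwa [hev.eq_of_nhds]
  refine ⟨T, hTpos, x, hx0, hsol, fun M => ?_⟩
  by_contra hcon
  push Not at hcon
  obtain ⟨τ', h1, z, h2, h3⟩ := extend hF hTpos.le hsol (hcon 0 ⟨le_rfl, hTpos⟩) hcon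
  have : τ' ≤ T := le_csSup hbdd ⟨hTpos.trans h1, z, h2.trans hx0, h3⟩
  linarith

theorem smooth_dep [CompleteSpace E] {F : E → E} (hF : Trunc F) {T : ℝ} {x : ℝ → E}
    (hx : Sol F T x) (R : ℝ → E →L[ℝ] E) (y0 : ℝ → E) (hy0 : ContDiff ℝ ∞ y0)
    (hR : ∀ σ, |σ| < 1 / 2 → ‖R σ‖ ≤ 2 ∧ (∀ z, F (R σ z) = R σ (F z)) ∧ y0 σ = R σ (x 0))
    {t0 : ℝ} (ht0 : t0 ∈ Ioo 0 T) :
    ContDiffAt ℝ ∞ (fun p : ℝ × ℝ => R p.2 (x p.1)) (t0, 0) := by
  obtain ⟨t1, h01, h1T⟩ := exists_between ht0.2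
  obtain ⟨M, hM⟩ := hx.bdd h1T
  obtain ⟨G, K, B, hK, hB, hG, hGF⟩ := hF (2 * M)
  choose g hg0 hg using Pool.Agent.H664.Flow.exists_solution hK hB
  set X : C(E, E) := ⟨G, hK.continuous⟩ with hX
  have hfl : Pool.Agent.H664.Flow.IsFlowOf X (fun t z => g z t) := ⟨hg0, hg⟩
  have hsm : ContDiff ℝ ∞ (fun p : ℝ × E => g p.2 p.1) := by
    rw [contDiff_infty]
    intro m
    have h1 : ContDiff ℝ ((m + 1 : ℕ) : WithTop ℕ∞) X := by
      have : ContDiff ℝ ∞ X := hG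
      exact this.of_le (by exact_mod_cast le_top)
    exact (Pool.Agent.H664.Flow.contDiff_flow (Nat.succ_ne_zero m) h1 hK hfl).of_le
      (by exact_mod_cast Nat.le_succ m)
  have h2 : ContDiff ℝ ∞ (fun p : ℝ × ℝ => g (y0 p.2) p.1) :=
    hsm.comp (contDiff_fst.prodMk (hy0.comp contDiff_snd))
  refine h2.contDiffAt.congr_of_eventuallyEq ?_
  have e1 : ∀ᶠ p : ℝ × ℝ in 𝓝 (t0, 0), p.1 ∈ Ioo 0 t1 :=
    continuous_fst.continuousAt.eventually (Ioo_mem_nhds ht0.1 h01)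
  have e2 : ∀ᶠ p : ℝ × ℝ in 𝓝 (t0, 0), |p.2| < 1 / 2 :=
    (continuous_abs.comp continuous_snd).continuousAt.eventually
      (gt_mem_nhds (by simp))
  filter_upwards [e1, e2] with p hp1 hp2
  obtain ⟨h3, h4, h5⟩ := hR p.2 hp2
  refine eq_trunc hK hGF (t := t1) (x := fun s => R p.2 (x s)) (y := g (y0 p.2))
    (fun s hs => ?_) (fun s hs => ?_) (fun s _ => hg _ s) ?_ (Ioo_subset_Icc_self hp1)
  · rw [h4]
    exact (R p.2).hasFDerivAt.comp_hasDerivAt s (hx s ⟨hs.1, hs.2.trans_lt h1T⟩)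
  · exact ((R p.2).le_opNorm _).trans (mul_le_mul h3 (hM s hs) (norm_nonneg _) (by norm_num))
  · rw [hg0, h5]

end

end Pool.Agent.H529Z.Bous
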