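import Mathlib

/-! Elementary differential inequalities. -/

open Set Filter Topology

namespace Pool.Agent.H529Z.Bous

lemma le_of_deriv {f f' g g' : ℝ → ℝ} {a b : ℝ} (hab : a ≤ b)
    (hf : ∀ s ∈ Icc a b, HasDerivAt f (f' s) s) (hg : ∀ s ∈ Icc a b, HasDerivAt g (g' s) s)
    (h0 : f a ≤ g a) (h : ∀ s ∈ Icc a b, f' s ≤ g' s) : f b ≤ g b :=
  image_le_of_deriv_right_le_deriv_boundary
    (fun s hs => (hf s hs).continuousAt.continuousWithinAt)
    (fun s hs => (hf s (Ico_subset_Icc_self hs)).hasDerivWithinAt) h0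
    (fun s hs => (hg s hs).continuousAt.continuousWithinAt)
    (fun s hs => (hg s (Ico_subset_Icc_self hs)).hasDerivWithinAt)
    (fun s hs => h s (Ico_subset_Icc_self hs)) ⟨hab, le_rfl⟩

lemma mono_of_deriv {f f' : ℝ → ℝ} {a b : ℝ} (hab : a ≤ b)
    (hf : ∀ s ∈ Icc a b, HasDerivAt f (f' s) s) (h : ∀ s ∈ Icc a b, 0 ≤ f' s) : f a ≤ f b :=
  le_of_deriv (f := fun _ => f a) (f' := fun _ => 0) hab (fun s _ => hasDerivAt_const s _) hf
    le_rfl h

lemma exists_clamp {k : ℝ → ℝ} {t : ℝ} (ht : 0 ≤ t) (hk : ContinuousOn k (Icc 0 t)) :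
    ∃ N : ℝ → ℝ, N 0 = 0 ∧ ∀ s ∈ Icc 0 t, HasDerivAt N (k s) s := by
  have h1 : Continuous (fun s => k (projIcc 0 t ht s)) :=
    (continuousOn_iff_continuous_domRestrict.1 hk).comp continuous_projIcc
  refine ⟨fun s => ∫ r in (0:ℝ)..s, k (projIcc 0 t ht r), by simp, fun s hs => ?_⟩
  have := (h1.integral_hasStrictDerivAt 0 s).hasDerivAt
  rwa [projIcc_of_mem _ hs] at this

lemma lin_exp {f k : ℝ → ℝ} {t : ℝ} (ht : 0 ≤ t)
    (hf : ∀ s ∈ Icc 0 t, HasDerivAt f (k s * f s) s) (hk : ContinuousOn k (Icc 0 t)) :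
    ∃ c > 0, f t = f 0 * c := by
  obtain ⟨N, hN0, hN⟩ := exists_clamp ht hk
  have h1 : ∀ s ∈ Icc 0 t, HasDerivAt (fun s => f s * Real.exp (-N s)) 0 s := fun s hs => by
    refine HasDerivAt.congr_deriv ((hf s hs).mul (hN s hs).neg.exp) ?_
    simp only [Pi.neg_apply]; ring
  have h2 := constant_of_has_deriv_right_zero
    (fun s hs => (h1 s hs).continuousAt.continuousWithinAt)
    (fun s hs => (h1 s (Ico_subset_Icc_self hs)).hasDerivWithinAt) t ⟨ht, le_rfl⟩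
  refine ⟨Real.exp (N t), Real.exp_pos _, ?_⟩
  simp only [hN0, neg_zero, Real.exp_zero, mul_one] at h2
  rw [← h2, mul_assoc, ← Real.exp_add]; simp

lemma coop2 {x y α β : ℝ → ℝ} {t : ℝ}
    (hx : ∀ s ∈ Icc 0 t, HasDerivAt x (α s * y s) s)
    (hy : ∀ s ∈ Icc 0 t, HasDerivAt y (β s * x s) s)
    (hα : ∀ s ∈ Icc 0 t, 0 ≤ α s) (hβ : ∀ s ∈ Icc 0 t, 0 ≤ β s) (hx0 : x 0 = 1) (hy0 : y 0 = 0) :
    ∀ s ∈ Icc 0 t, 1 ≤ x s ∧ 0 ≤ y s := by
  have sub : ∀ s ∈ Icc 0 t, Icc 0 s ⊆ Icc 0 t := fun s hs => Icc_subset_Icc_right hs.2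
  have h1 : ∀ s ∈ Icc 0 t, 0 ≤ x s * y s := fun s hs => by
    have := mono_of_deriv (f := fun s => x s * y s) hs.1
      (fun r hr => (hx r (sub s hs hr)).mul (hy r (sub s hs hr))) (fun r hr => by
        have := hα r (sub s hs hr); have := hβ r (sub s hs hr)
        nlinarith [mul_nonneg (hα r (sub s hs hr)) (mul_self_nonneg (y r)),
          mul_nonneg (hβ r (sub s hs hr)) (mul_self_nonneg (x r))])
    simpa [hy0] using this
  have h2 : ∀ s ∈ Icc 0 t, 1 ≤ x s * x s := fun s hs => by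
    have := mono_of_deriv (f := fun s => x s * x s) hs.1
      (fun r hr => (hx r (sub s hs hr)).mul (hx r (sub s hs hr))) (fun r hr => by
        nlinarith [mul_nonneg (hα r (sub s hs hr)) (h1 r (sub s hs hr))])
    simpa [hx0] using this
  have h3 : ∀ s ∈ Icc 0 t, 1 ≤ x s := fun s hs => by
    by_contra hcon
    push Not at hcon
    have h4 : x s ≤ 0 := by
      by_contra h5
      push Not at h5
      nlinarith [h2 s hs]
    have h5 := intermediate_value_Icc' hs.1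
      (fun r hr => (hx r (sub s hs hr)).continuousAt.continuousWithinAt)
    obtain ⟨r, hr, hr0⟩ := h5 (show (0:ℝ) ∈ Icc (x s) (x 0) from ⟨h4, by rw [hx0]; norm_num⟩)
    have := h2 r (sub s hs hr)
    rw [hr0] at this; norm_num at this
  intro s hs
  refine ⟨h3 s hs, ?_⟩
  have := h1 s hs
  by_contra h4
  push Not at h4
  nlinarith [h3 s hs]

lemma grow {f f' : ℝ → ℝ} {a b K : ℝ} {n : ℕ} (hf : ∀ s ∈ Icc a b, HasDerivAt f (f' s) s)
    (h0 : 0 ≤ f a) (h : ∀ s ∈ Icc a b, K * (s - a) ^ n ≤ f' s) :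
    ∀ s ∈ Icc a b, K / (n + 1) * (s - a) ^ (n + 1) ≤ f s := by
  intro s hs
  have sub : Icc a s ⊆ Icc a b := Icc_subset_Icc_right hs.2
  refine le_of_deriv (f := fun s => K / (n + 1) * (s - a) ^ (n + 1))
    (f' := fun s => K * (s - a) ^ n) hs.1 (fun r _ => ?_) (fun r hr => hf r (sub hr))
    (by simpa using h0) (fun r hr => h r (sub hr))
  refine HasDerivAt.congr_deriv ((((hasDerivAt_id r).sub_const a).pow (n + 1)).const_mul _) ?_
  simp only [id, Nat.add_sub_cancel]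
  push_cast
  field_simp

lemma grow2 {x y x' y' : ℝ → ℝ} {a b α β K : ℝ} {n : ℕ} (hα : 0 ≤ α) (hβ : 0 ≤ β)
    (hx : ∀ s ∈ Icc a b, HasDerivAt x (x' s) s) (hy : ∀ s ∈ Icc a b, HasDerivAt y (y' s) s)
    (hx' : ∀ s ∈ Icc a b, α * y s ≤ x' s) (hy' : ∀ s ∈ Icc a b, β * x s ≤ y' s)
    (hx0 : 0 ≤ x a) (hy0 : 0 ≤ y a) (h : ∀ s ∈ Icc a b, K * (s - a) ^ n ≤ x s) :
    ∀ s ∈ Icc a b, α * β * K / ((n + 1) * (n + 2)) * (s - a) ^ (n + 2) ≤ x s := by
  have h1 := grow (K := β * K) (n := n) hy hy0 (fun s hs => by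
    have := mul_le_mul_of_nonneg_left (h s hs) hβ
    have := hy' s hs
    nlinarith)
  have h2 := grow (K := α * (β * K / (n + 1))) (n := n + 1) hx hx0 (fun s hs => by
    have := mul_le_mul_of_nonneg_left (h1 s hs) hα
    have := hx' s hs
    nlinarith)
  intro s hs
  refine le_of_eq_of_le ?_ (h2 s hs)
  push_cast
  field_simp
  ring

lemma grow6 {x y x' y' : ℝ → ℝ} {a b α β : ℝ} (hα : 0 ≤ α) (hβ : 0 ≤ β)
    (hx : ∀ s ∈ Icc a b, HasDerivAt x (x' s) s) (hy : ∀ s ∈ Icc a b, HasDerivAt y (y' s) s)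
    (hx' : ∀ s ∈ Icc a b, α * y s ≤ x' s) (hy' : ∀ s ∈ Icc a b, β * x s ≤ y' s)
    (hx1 : ∀ s ∈ Icc a b, 1 ≤ x s) (hy0 : 0 ≤ y a) :
    ∀ s ∈ Icc a b, (α * β) ^ 3 / 720 * (s - a) ^ 6 ≤ x s := by
  intro s hs
  have hx0 : 0 ≤ x a := zero_le_one.trans (hx1 a ⟨le_rfl, hs.1.trans hs.2⟩)
  have h1 := grow2 (K := 1) (n := 0) hα hβ hx hy hx' hy' hx0 hy0 (fun s hs => by
    simpa using hx1 s hs)
  have h2 := grow2 hα hβ hx hy hx' hy' hx0 hy0 h1
  have h3 := grow2 hα hβ hx hy hx' hy' hx0 hy0 h2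
  refine le_of_eq_of_le ?_ (h3 s hs)
  push_cast
  ring

lemma coop {ι : Type} {x x' : ι → ℝ → ℝ} {n : ℝ → ℝ} {t C : ℝ} (ht : 0 ≤ t) (hC : 0 ≤ C)
    (hn : ContinuousOn n (Icc 0 t)) (hn0 : ∀ s ∈ Icc 0 t, 0 ≤ n s)
    (hx : ∀ i, ∀ s ∈ Icc 0 t, HasDerivAt (x i) (x' i s) s) (h0 : ∀ i, 0 ≤ x i 0)
    (hb : ∀ i, ∀ s ∈ Icc 0 t, x i s < 0 → -(C * n s) ≤ x' i s)
    (hsup : ∀ s ∈ Icc 0 t, ∀ c, 0 ≤ c → (∀ i, -c ≤ x i s) → n s ≤ 2 * c) :
    ∀ i, ∀ s ∈ Icc 0 t, 0 ≤ x i s := by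
  obtain ⟨N, hN0, hN⟩ := exists_clamp ht hn
  have sub : ∀ s ∈ Icc 0 t, Icc 0 s ⊆ Icc 0 t := fun s hs => Icc_subset_Icc_right hs.2
  have hNpos : ∀ s ∈ Icc 0 t, 0 ≤ N s := fun s hs => by
    rw [← hN0]
    exact mono_of_deriv hs.1 (fun r hr => hN r (sub s hs hr)) (fun r hr => hn0 r (sub s hs hr))
  have h1 : ∀ i, ∀ s ∈ Icc 0 t, -(C * N s) ≤ x i s := by
    intro i s hs
    have h2 : ∀ ε > 0, -x i s ≤ C * N s + ε * (1 + s) := by
      intro ε hε
      have hB : ∀ r ∈ Icc 0 t, HasDerivAt (fun r => C * N r + ε * (1 + r)) (C * n r + ε) r :=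
        fun r hr => HasDerivAt.congr_deriv (((hN r hr).const_mul C).add
          (((hasDerivAt_id r).const_add 1).const_mul ε)) (by simp)
      refine image_le_of_deriv_right_lt_deriv_boundary' (f := fun r => -x i r)
        (f' := fun r => -x' i r) (a := 0) (b := t) (B := fun r => C * N r + ε * (1 + r))
        (B' := fun r => C * n r + ε)
        (fun r hr => (hx i r hr).neg.continuousAt.continuousWithinAt)
        (fun r hr => (hx i r (Ico_subset_Icc_self hr)).neg.hasDerivWithinAt) ?_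
        (fun r hr => (hB r hr).continuousAt.continuousWithinAt)
        (fun r hr => (hB r (Ico_subset_Icc_self hr)).hasDerivWithinAt) ?_ hs
      · simp only [hN0]; linarith [h0 i]
      · intro r hr h
        have hr' := Ico_subset_Icc_self hr
        have h3 : x i r < 0 := by
          have := mul_nonneg hC (hNpos r hr')
          have : 0 < ε * (1 + r) := mul_pos hε (by linarith [hr.1])
          linarith
        have := hb i r hr' h3
        linarith
    by_contra hcon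
    push Not at hcon
    have h3 := h2 ((-x i s - C * N s) / (2 * (1 + s))) (div_pos (by linarith) (by linarith [hs.1]))
    have h4 : (-x i s - C * N s) / (2 * (1 + s)) * (1 + s) = (-x i s - C * N s) / 2 := by
      have : 1 + s ≠ 0 := by linarith [hs.1]
      field_simp
    rw [h4] at h3
    linarith
  have h2 : ∀ s ∈ Icc 0 t, N s = 0 := by
    refine eq_zero_of_abs_deriv_le_mul_abs_self_of_eq_zero_right (f' := n) (K := 2 * C)
      (fun r hr => (hN r hr).continuousAt.continuousWithinAt)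
      (fun r hr => (hN r (Ico_subset_Icc_self hr)).hasDerivWithinAt) hN0 fun r hr => ?_
    have hr' := Ico_subset_Icc_self hr
    rw [Real.norm_eq_abs, Real.norm_eq_abs, abs_of_nonneg (hn0 r hr'), abs_of_nonneg (hNpos r hr')]
    have := hsup r hr' (C * N r) (mul_nonneg hC (hNpos r hr')) (fun i => h1 i r hr')
    linarith
  intro i s hs
  have := h1 i s hs
  rw [h2 s hs] at this
  simpa using this

lemma doubling {u : ℝ → ℝ} {τ C : ℝ} (hτ : 0 ≤ τ) (hC : 0 ≤ C) (hu : ContinuousOn u (Icc 0 τ))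
    (h0 : u 0 = 1)
    (hw : ∀ a b, 0 ≤ a → a ≤ b → b ≤ τ → u b ≤ 128 * u a → (b - a) ^ 7 * u a ≤ C ^ 7) :
    τ ≤ 2 * C := by
  have key : ∀ k : ℕ, ∀ t ∈ Icc 0 τ, u t ≤ 128 ^ (k + 1) → t ≤ C * (2 - (1 / 2) ^ k) := by
    intro k
    induction k with
    | zero =>
      intro t ht h
      have h1 := hw 0 t le_rfl ht.1 ht.2 (by rw [h0]; simpa using h)
      rw [h0, sub_zero, mul_one] at h1
      have := le_of_pow_le_pow_left₀ (by norm_num) hC h1
      simp only [pow_zero]; linarith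
    | succ k ih =>
      intro t ht h
      have hpow : (0:ℝ) < (1 / 2) ^ k := by positivity
      rcases le_or_gt (u t) (128 ^ (k + 1)) with h1 | h1
      · refine (ih t ht h1).trans (mul_le_mul_of_nonneg_left ?_ hC)
        rw [pow_succ]; linarith
      · have h2 := intermediate_value_Icc ht.1 (hu.mono (Icc_subset_Icc_right ht.2))
        have h3 : (1:ℝ) ≤ 128 ^ (k + 1) := one_le_pow₀ (by norm_num)
        obtain ⟨a, ha, hua⟩ := h2 (show (128:ℝ) ^ (k + 1) ∈ Icc (u 0) (u t) from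
          ⟨by rw [h0]; exact h3, h1.le⟩)
        have h4 := ih a ⟨ha.1, ha.2.trans ht.2⟩ hua.le
        have h5 := hw a t ha.1 ha.2 ht.2 (by rw [hua, ← pow_succ']; exact h)
        rw [hua] at h5
        have h6 : ((t - a) * 2 ^ (k + 1)) ^ 7 ≤ C ^ 7 := by
          rw [mul_pow, ← pow_mul, mul_comm (k + 1) 7, pow_mul]
          norm_num
          exact h5
        have h7 := le_of_pow_le_pow_left₀ (by norm_num) hC h6
        have h8 : t - a ≤ C * (1 / 2) ^ (k + 1) := by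
          rw [one_div, inv_pow, ← div_eq_mul_inv, le_div_iff₀ (by positivity)]
          exact h7
        rw [pow_succ] at h8 ⊢
        nlinarith
  obtain ⟨k, hk⟩ := pow_unbounded_of_one_lt (u τ) (show (1:ℝ) < 128 by norm_num)
  have h1 := key k τ ⟨hτ, le_rfl⟩ (hk.le.trans (pow_le_pow_right₀ (by norm_num) (Nat.le_succ k)))
  have : (0:ℝ) ≤ C * (1 / 2) ^ k := by positivity
  nlinarith

end Pool.Agent.H529Z.Bous
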