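import Mathlib
import Pool.Agent.Helper186.Nemytskii
import Pool.Agent.H529Z.Bous.Abs

/-! The Lagrangian vector field of the angular Boussinesq system. -/

open Set Filter Topology
open scoped ContDiff

namespace Pool.Agent.H529Z.Bous

noncomputable section

/-- half opening angle -/
def L : ℝ := Real.pi / 4

lemma L_pos : 0 < L := by unfold L; positivity
lemma L_lt_one : L < 1 := by unfold L; linarith [Real.pi_lt_four]
lemma L_gt : 3 / 4 < L := by unfold L; linarith [Real.pi_gt_three]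
lemma LL : -L ≤ L := by linarith [L_pos]

abbrev K : Type := Icc (-L) L
abbrev A : Type := C(K, ℝ)
abbrev E : Type := A × A × A

/-- extension to the line -/
def e (f : A) (r : ℝ) : ℝ := f (projIcc (-L) L LL r)

lemma e_cont (f : A) : Continuous (e f) := f.continuous.comp continuous_projIcc
lemma e_coe (f : A) (a : K) : e f a = f a := by unfold e; rw [projIcc_val]
lemma e_of_mem (f : A) {r : ℝ} (h : r ∈ Icc (-L) L) : e f r = f ⟨r, h⟩ := by
  unfold e; rw [projIcc_of_mem _ h]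
lemma e_le (f : A) (r : ℝ) : |e f r| ≤ ‖f‖ := f.norm_coe_le_norm _
@[simp] lemma e_add (f g : A) (r : ℝ) : e (f + g) r = e f r + e g r := rfl
@[simp] lemma e_sub (f g : A) (r : ℝ) : e (f - g) r = e f r - e g r := rfl
@[simp] lemma e_mul (f g : A) (r : ℝ) : e (f * g) r = e f r * e g r := rfl
@[simp] lemma e_neg (f : A) (r : ℝ) : e (-f) r = - e f r := rfl
@[simp] lemma e_smul (c : ℝ) (f : A) (r : ℝ) : e (c • f) r = c * e f r := rfl
lemma e_ext {f g : A} (h : ∀ r ∈ Icc (-L) L, e f r = e g r) : f = g := by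
  ext a; rw [← e_coe, ← e_coe]; exact h a a.2
lemma norm_le_of_e {f : A} {M : ℝ} (hM : 0 ≤ M) (h : ∀ r ∈ Icc (-L) L, |e f r| ≤ M) :
    ‖f‖ ≤ M := by
  rw [ContinuousMap.norm_le _ hM]
  intro a; rw [← e_coe]; exact h a a.2

/-- evaluation of the extension as a continuous linear map -/
def ev (r : ℝ) : A →L[ℝ] ℝ := ContinuousMap.evalCLM ℝ (projIcc (-L) L LL r)
lemma ev_apply (r : ℝ) (f : A) : ev r f = e f r := rfl

lemma hasDerivAt_e {f : ℝ → A} {f' : A} {t : ℝ} (h : HasDerivAt f f' t) (r : ℝ) :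
    HasDerivAt (fun s => e (f s) r) (e f' r) t :=
  (ev r).hasFDerivAt.comp_hasDerivAt t h

/-- primitive -/
def prim (f : A) (r : ℝ) : ℝ := ∫ s in (-L)..r, e f s

lemma prim_hasDerivAt (f : A) (r : ℝ) : HasDerivAt (prim f) (e f r) r :=
  ((e_cont f).integral_hasStrictDerivAt (-L) r).hasDerivAt

lemma prim_cont (f : A) : Continuous (prim f) :=
  continuous_iff_continuousAt.2 fun r => (prim_hasDerivAt f r).continuousAt

lemma prim_left (f : A) : prim f (-L) = 0 := by simp [prim]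

lemma prim_le (f : A) {r : ℝ} (h : r ∈ Icc (-L) L) : |prim f r| ≤ 2 * ‖f‖ := by
  have h1 := intervalIntegral.norm_integral_le_of_norm_le_const (a := -L) (b := r) (f := e f)
    (C := ‖f‖) (fun s _ => e_le f s)
  rw [Real.norm_eq_abs] at h1
  refine h1.trans ?_
  rw [abs_of_nonneg (by linarith [h.1])]
  nlinarith [norm_nonneg f, h.2, L_lt_one]

/-- symmetric primitive -/
def I : A →L[ℝ] A :=
  LinearMap.mkContinuous
    { toFun := fun f => ⟨fun a => prim f a - prim f L / 2,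
        ((prim_cont f).comp continuous_subtype_val).sub continuous_const⟩
      map_add' := fun f g => by
        ext a
        have h : ∀ r, prim (f + g) r = prim f r + prim g r := fun r => by
          unfold prim
          rw [← intervalIntegral.integral_add ((e_cont f).intervalIntegrable _ _)
            ((e_cont g).intervalIntegrable _ _)]
          rfl
        simp only [ContinuousMap.coe_mk, ContinuousMap.add_apply, h]; ring
      map_smul' := fun c f => by
        ext a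
        have h : ∀ r, prim (c • f) r = c * prim f r := fun r => by
          unfold prim
          rw [← intervalIntegral.integral_const_mul]
          rfl
        simp only [ContinuousMap.coe_mk, ContinuousMap.smul_apply, h, RingHom.id_apply,
          smul_eq_mul]; ring } 3
    (by
      intro f
      rw [ContinuousMap.norm_le _ (by positivity)]
      intro a
      show |prim f a - prim f L / 2| ≤ 3 * ‖f‖
      have h1 := prim_le f a.2
      have h2 := prim_le f (r := L) ⟨LL, le_rfl⟩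
      rw [abs_le] at h1 h2 ⊢
      constructor <;> linarith [h1.1, h1.2, h2.1, h2.2])

lemma e_I (f : A) {r : ℝ} (h : r ∈ Icc (-L) L) : e (I f) r = prim f r - prim f L / 2 := by
  rw [e_of_mem _ h]; rfl

/-- `f'` is the derivative of `f` inside the interval -/
def HD (f f' : A) : Prop := ∀ r ∈ Ioo (-L) L, HasDerivAt (e f) (e f' r) r

lemma HD_I (f : A) : HD (I f) f := by
  intro r hr
  refine ((prim_hasDerivAt f r).sub_const (prim f L / 2)).congr_of_eventuallyEq ?_
  filter_upwards [Ioo_mem_nhds hr.1 hr.2] with s hs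
  exact e_I f (Ioo_subset_Icc_self hs)

lemma HD.integral {f f' : A} (h : HD f f') {a b : ℝ} (ha : a ∈ Icc (-L) L) (hb : b ∈ Icc (-L) L)
    (hab : a ≤ b) : ∫ s in a..b, e f' s = e f b - e f a :=
  intervalIntegral.integral_eq_sub_of_hasDerivAt_of_le hab (e_cont f).continuousOn
    (fun r hr => h r ⟨ha.1.trans_lt hr.1, hr.2.trans_le hb.2⟩)
    ((e_cont f').intervalIntegrable _ _)

lemma HD.e_I {f f' : A} (h : HD f f') {r : ℝ} (hr : r ∈ Icc (-L) L) :
    e (I f') r = e f r - (e f L + e f (-L)) / 2 := by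
  rw [Bous.e_I _ hr]
  unfold prim
  rw [h.integral ⟨le_rfl, LL⟩ hr hr.1, h.integral ⟨le_rfl, LL⟩ ⟨LL, le_rfl⟩ LL]
  ring

lemma HD.I_eq {f f' : A} (h : HD f f') (h0 : e f L + e f (-L) = 0) : I f' = f :=
  e_ext fun r hr => by rw [h.e_I hr, h0]; ring

lemma e_I_ends (f : A) : e (I f) L + e (I f) (-L) = 0 := by
  rw [e_I _ ⟨LL, le_rfl⟩, e_I _ ⟨le_rfl, LL⟩, prim_left]; ring

lemma HD.add {f f' g g' : A} (h1 : HD f f') (h2 : HD g g') : HD (f + g) (f' + g') :=
  fun r hr => (h1 r hr).add (h2 r hr)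
lemma HD.sub {f f' g g' : A} (h1 : HD f f') (h2 : HD g g') : HD (f - g) (f' - g') :=
  fun r hr => (h1 r hr).sub (h2 r hr)
lemma HD.neg {f f' : A} (h1 : HD f f') : HD (-f) (-f') :=
  fun r hr => (h1 r hr).neg
lemma HD.mul {f f' g g' : A} (h1 : HD f f') (h2 : HD g g') : HD (f * g) (f' * g + f * g') :=
  fun r hr => (h1 r hr).mul (h2 r hr)
lemma HD.congr {f f' f'' : A} (h1 : HD f f') (h : f' = f'') : HD f f'' := h ▸ h1

/-- superposition -/
def nem (φ : ℝ → ℝ) (hφ : Continuous φ) (f : A) : A := (⟨φ, hφ⟩ : C(ℝ, ℝ)).comp f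

@[simp] lemma e_nem (φ : ℝ → ℝ) (hφ : Continuous φ) (f : A) (r : ℝ) :
    e (nem φ hφ f) r = φ (e f r) := rfl

lemma contDiff_nem {φ : ℝ → ℝ} (hφ : ContDiff ℝ ∞ φ) : ContDiff ℝ ∞ (nem φ hφ.continuous) := by
  rw [contDiff_infty]
  intro n
  exact Pool.Agent.Helper186.contDiff_comp_nat n (⟨φ, hφ.continuous⟩ : C(ℝ, ℝ))
    (hφ.of_le (by exact_mod_cast le_top))

lemma hasDerivAt_nem {φ φ' : ℝ → ℝ} (hφ : Continuous φ) (hφ' : Continuous φ')
    (h : ∀ r, HasDerivAt φ (φ' r) r) {f : ℝ → A} {f' : A} {t : ℝ} (hf : HasDerivAt f f' t) :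
    HasDerivAt (fun s => nem φ hφ (f s)) (nem φ' hφ' (f t) * f') t := by
  set D : C(ℝ, ℝ →L[ℝ] ℝ) := ⟨fun r => ContinuousLinearMap.toSpanSingleton ℝ (φ' r), by
    have : Continuous (fun c : ℝ => ContinuousLinearMap.toSpanSingleton ℝ c) :=
      (ContinuousLinearMap.toSpanSingletonCLE (𝕜 := ℝ) (E := ℝ)).continuous
    exact this.comp hφ'⟩ with hD
  have h1 := Pool.Agent.Helper186.hasFDerivAt_comp (K := K) (⟨φ, hφ⟩ : C(ℝ, ℝ)) D
    (fun r => (h r).hasFDerivAt) (f t)
  have h2 := h1.comp_hasDerivAt t hf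
  refine HasDerivAt.congr_deriv h2 ?_
  ext a
  simp [hD, nem, mul_comm]

def cosA (f : A) : A := nem Real.cos Real.continuous_cos f
def sinA (f : A) : A := nem Real.sin Real.continuous_sin f

@[simp] lemma e_cosA (f : A) (r : ℝ) : e (cosA f) r = Real.cos (e f r) := rfl
@[simp] lemma e_sinA (f : A) (r : ℝ) : e (sinA f) r = Real.sin (e f r) := rfl

lemma HD.cos {f f' : A} (h : HD f f') : HD (cosA f) (-(sinA f * f')) := fun r hr => by
  refine HasDerivAt.congr_deriv (h r hr).cos ?_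
  simp
lemma HD.sin {f f' : A} (h : HD f f') : HD (sinA f) (cosA f * f') := fun r hr => (h r hr).sin

lemma hasDerivAt_cosA {f : ℝ → A} {f' : A} {t : ℝ} (hf : HasDerivAt f f' t) :
    HasDerivAt (fun s => cosA (f s)) (-(sinA (f t) * f')) t := by
  have := hasDerivAt_nem Real.continuous_cos Real.continuous_sin.neg Real.hasDerivAt_cos hf
  refine HasDerivAt.congr_deriv this ?_
  ext a; simp [sinA, nem]
lemma hasDerivAt_sinA {f : ℝ → A} {f' : A} {t : ℝ} (hf : HasDerivAt f f' t) :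
    HasDerivAt (fun s => sinA (f s)) (cosA (f t) * f') t :=
  hasDerivAt_nem Real.continuous_sin Real.continuous_cos Real.hasDerivAt_sin hf

lemma sq_add (f : A) : sinA f * sinA f + cosA f * cosA f = 1 := by
  ext a
  have := Real.sin_sq_add_cos_sq (f a)
  simp only [sinA, cosA, nem, ContinuousMap.add_apply, ContinuousMap.mul_apply,
    ContinuousMap.comp_apply, ContinuousMap.coe_mk, ContinuousMap.one_apply]
  linarith

/-! ### derived quantities -/

def Th (x : E) : A := I x.1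
def cc (x : E) : A := cosA (Th x)
def ss (x : E) : A := sinA (Th x)
def C2 (x : E) : A := cc x * cc x - ss x * ss x
def S2 (x : E) : A := ss x * cc x + ss x * cc x
def gq (x : E) : A := -I x.2.1
def Aq (x : E) : A := I (cc x * x.2.2)
def Bq (x : E) : A := -I (ss x * x.2.2)
def Rq (x : E) : A := cc x * Bq x + ss x * Aq x
def Sq (x : E) : A := cc x * Aq x - ss x * Bq x
def Jq (x : E) : A := I (C2 x * gq x * x.1)
def Hq (x : E) : A := I (S2 x * gq x * x.1)
def Wq (x : E) : A := C2 x * Jq x + S2 x * Hq x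
/-- twice the stream function -/
def Vq (x : E) : A := S2 x * Jq x - C2 x * Hq x
def F (x : E) : E := (Wq x * x.1 + Wq x * x.1, cc x * x.2.2, -(Wq x * x.2.2) - x.2.1 * Rq x)

/-! ### truncation -/

/-- bounded, Lipschitz and smooth -/
def Good (f : E → A) : Prop :=
  ContDiff ℝ ∞ f ∧ ∃ C K : NNReal, (∀ x, ‖f x‖ ≤ C) ∧ LipschitzWith K f

lemma Good.add {f g : E → A} (hf : Good f) (hg : Good g) : Good (fun x => f x + g x) := by
  obtain ⟨h1, C1, K1, h2, h3⟩ := hf
  obtain ⟨h4, C2, K2, h5, h6⟩ := hg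
  exact ⟨h1.add h4, C1 + C2, K1 + K2,
    fun x => (norm_add_le _ _).trans (by push_cast; linarith [h2 x, h5 x]), h3.add h6⟩

lemma Good.neg {f : E → A} (hf : Good f) : Good (fun x => -f x) := by
  obtain ⟨h1, C1, K1, h2, h3⟩ := hf
  exact ⟨h1.neg, C1, K1, fun x => by rw [norm_neg]; exact h2 x, h3.neg⟩

lemma Good.sub {f g : E → A} (hf : Good f) (hg : Good g) : Good (fun x => f x - g x) := by
  simpa only [sub_eq_add_neg] using hf.add hg.neg

lemma Good.mul {f g : E → A} (hf : Good f) (hg : Good g) : Good (fun x => f x * g x) := by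
  obtain ⟨h1, C1, K1, h2, h3⟩ := hf
  obtain ⟨h4, C2, K2, h5, h6⟩ := hg
  refine ⟨h1.mul h4, C1 * C2, K1 * C2 + C1 * K2, fun x => (norm_mul_le _ _).trans ?_,
    LipschitzWith.of_dist_le_mul fun x y => ?_⟩
  · push_cast; exact mul_le_mul (h2 x) (h5 x) (norm_nonneg _) C1.2
  · have e1 : f x * g x - f y * g y = (f x - f y) * g x + f y * (g x - g y) := by ring
    have h7 := h3.dist_le_mul x y
    have h8 := h6.dist_le_mul x y
    rw [dist_eq_norm] at h7 h8 ⊢
    rw [e1]
    refine (norm_add_le _ _).trans ?_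
    have h9 : ‖(f x - f y) * g x‖ ≤ (K1 * dist x y) * C2 :=
      (norm_mul_le _ _).trans (mul_le_mul h7 (h5 x) (norm_nonneg _) (by positivity))
    have h10 : ‖f y * (g x - g y)‖ ≤ C1 * (K2 * dist x y) :=
      (norm_mul_le _ _).trans (mul_le_mul (h2 y) h8 (norm_nonneg _) C1.2)
    push_cast; nlinarith

lemma Good.I {f : E → A} (hf : Good f) : Good (fun x => I (f x)) := by
  obtain ⟨h1, C1, K1, h2, h3⟩ := hf
  refine ⟨Bous.I.contDiff.comp h1, ‖Bous.I‖₊ * C1, ‖Bous.I‖₊ * K1, fun x => ?_,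
    Bous.I.lipschitz.comp h3⟩
  push_cast
  exact (Bous.I.le_opNorm _).trans (mul_le_mul_of_nonneg_left (h2 x) (norm_nonneg _))

lemma good_nem {φ : ℝ → ℝ} (hφ : ContDiff ℝ ∞ φ) {C K : NNReal} (hC : ∀ r, |φ r| ≤ C)
    (hK : LipschitzWith K φ) {f : E → A} (h1 : ContDiff ℝ ∞ f) {K1 : NNReal}
    (h3 : LipschitzWith K1 f) : Good (fun x => nem φ hφ.continuous (f x)) := by
  refine ⟨(contDiff_nem hφ).comp h1, C, K * K1, fun x => norm_le_of_e C.2 fun r _ => hC _,
    LipschitzWith.comp (f := nem φ hφ.continuous) ?_ h3⟩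
  refine LipschitzWith.of_dist_le_mul fun u v => ?_
  rw [ContinuousMap.dist_le (by positivity)]
  intro a
  exact (hK.dist_le_mul (u a) (v a)).trans
    (mul_le_mul_of_nonneg_left (ContinuousMap.dist_apply_le_dist a) K.2)

lemma Good.cos {f : E → A} (hf : Good f) : Good (fun x => cosA (f x)) := by
  obtain ⟨h1, C1, K1, h2, h3⟩ := hf
  exact good_nem Real.contDiff_cos (C := 1) (fun r => Real.abs_cos_le_one r)
    Real.lipschitzWith_cos h1 h3
lemma Good.sin {f : E → A} (hf : Good f) : Good (fun x => sinA (f x)) := by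
  obtain ⟨h1, C1, K1, h2, h3⟩ := hf
  exact good_nem Real.contDiff_sin (C := 1) (fun r => Real.abs_sin_le_one r)
    Real.lipschitzWith_sin h1 h3

lemma exists_cut (N : ℝ) : ∃ (χ : ℝ → ℝ) (C K : NNReal), ContDiff ℝ ∞ χ ∧ (∀ r, |χ r| ≤ C) ∧
    LipschitzWith K χ ∧ ∀ r, |r| ≤ N → χ r = r := by
  let b : ContDiffBump (0 : ℝ) := ⟨|N| + 1, |N| + 2, by positivity, by linarith⟩
  have h1 : ContDiff ℝ ∞ (fun r : ℝ => b r * r) := b.contDiff.mul contDiff_id
  have h2 : HasCompactSupport (fun r : ℝ => b r * r) := b.hasCompactSupport.mul_right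
  obtain ⟨K, hK⟩ := ContDiff.lipschitzWith_of_hasCompactSupport h2 h1 (by simp)
  obtain ⟨C, hC⟩ := h2.exists_bound_of_continuous h1.continuous
  refine ⟨_, ⟨max C 0, le_max_right _ _⟩, K, h1, fun r => (hC r).trans (le_max_left _ _), hK,
    fun r hr => ?_⟩
  rw [b.one_of_mem_closedBall, one_mul]
  rw [Metric.mem_closedBall, dist_zero_right, Real.norm_eq_abs]
  show |r| ≤ |N| + 1
  linarith [le_abs_self N]

section
variable {X : E → E} (h1 : Good fun x => (X x).1) (h2 : Good fun x => (X x).2.1)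
  (h3 : Good fun x => (X x).2.2)
include h1 h2 h3

lemma good_F : Good (fun x => (F (X x)).1) ∧ Good (fun x => (F (X x)).2.1) ∧
    Good (fun x => (F (X x)).2.2) := by
  have hc : Good fun x => cc (X x) := h1.I.cos
  have hs : Good fun x => ss (X x) := h1.I.sin
  have hC : Good fun x => C2 (X x) := (hc.mul hc).sub (hs.mul hs)
  have hS : Good fun x => S2 (X x) := (hs.mul hc).add (hs.mul hc)
  have hg : Good fun x => gq (X x) := h2.I.neg
  have hA : Good fun x => Aq (X x) := (hc.mul h3).I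
  have hB : Good fun x => Bq (X x) := (hs.mul h3).I.neg
  have hR : Good fun x => Rq (X x) := (hc.mul hB).add (hs.mul hA)
  have hJ : Good fun x => Jq (X x) := ((hC.mul hg).mul h1).I
  have hH : Good fun x => Hq (X x) := ((hS.mul hg).mul h1).I
  have hW : Good fun x => Wq (X x) := (hC.mul hJ).add (hS.mul hH)
  exact ⟨(hW.mul h1).add (hW.mul h1), hc.mul h3, (hW.mul h3).neg.sub (h2.mul hR)⟩
end

theorem trunc_F : Trunc F := by
  intro N
  obtain ⟨χ, C, K, h1, h2, h3, h4⟩ := exists_cut N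
  set X : E → E := fun x => (nem χ h1.continuous x.1, nem χ h1.continuous x.2.1,
    nem χ h1.continuous x.2.2) with hX
  have g1 : Good fun x => (X x).1 :=
    good_nem h1 h2 h3 contDiff_fst LipschitzWith.prod_fst
  have g2 : Good fun x => (X x).2.1 :=
    good_nem h1 h2 h3 (contDiff_fst.comp contDiff_snd)
      (LipschitzWith.prod_fst.comp LipschitzWith.prod_snd)
  have g3 : Good fun x => (X x).2.2 :=
    good_nem h1 h2 h3 (contDiff_snd.comp contDiff_snd)
      (LipschitzWith.prod_snd.comp LipschitzWith.prod_snd)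
  obtain ⟨⟨a1, C1, K1, b1, c1⟩, ⟨a2, C2, K2, b2, c2⟩, ⟨a3, C3, K3, b3, c3⟩⟩ := good_F g1 g2 g3
  refine ⟨fun x => F (X x), max K1 (max K2 K3), max C1 (max C2 C3), c1.prodMk (c2.prodMk c3),
    fun x => ?_, a1.prodMk (a2.prodMk a3), fun x hx => ?_⟩
  · push_cast
    rw [Prod.norm_def, Prod.norm_def]
    exact max_le_max (b1 x) (max_le_max (b2 x) (b3 x))
  · have key : ∀ f : A, ‖f‖ ≤ N → nem χ h1.continuous f = f := fun f hf =>
      e_ext fun r _ => h4 _ ((e_le f r).trans hf)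
    have : X x = x := by
      rw [hX]
      simp only
      rw [key _ ((norm_fst_le x).trans hx), key _ (((norm_fst_le x.2).trans (norm_snd_le x)).trans hx),
        key _ (((norm_snd_le x.2).trans (norm_snd_le x)).trans hx)]
    show F (X x) = F x
    rw [this]

/-! ### smoothness of the derived quantities -/

lemma cd_Th : ContDiff ℝ ∞ Th := I.contDiff.comp contDiff_fst
lemma cd_cc : ContDiff ℝ ∞ cc := (contDiff_nem Real.contDiff_cos).comp cd_Th
lemma cd_ss : ContDiff ℝ ∞ ss := (contDiff_nem Real.contDiff_sin).comp cd_Th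
lemma cd_C2 : ContDiff ℝ ∞ C2 := (cd_cc.mul cd_cc).sub (cd_ss.mul cd_ss)
lemma cd_S2 : ContDiff ℝ ∞ S2 := (cd_ss.mul cd_cc).add (cd_ss.mul cd_cc)
lemma cd_gq : ContDiff ℝ ∞ gq := (I.contDiff.comp (contDiff_fst.comp contDiff_snd)).neg
lemma cd_Aq : ContDiff ℝ ∞ Aq := I.contDiff.comp (cd_cc.mul (contDiff_snd.comp contDiff_snd))
lemma cd_Bq : ContDiff ℝ ∞ Bq :=
  (I.contDiff.comp (cd_ss.mul (contDiff_snd.comp contDiff_snd))).neg
lemma cd_Rq : ContDiff ℝ ∞ Rq := (cd_cc.mul cd_Bq).add (cd_ss.mul cd_Aq)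
lemma cd_Jq : ContDiff ℝ ∞ Jq := I.contDiff.comp ((cd_C2.mul cd_gq).mul contDiff_fst)
lemma cd_Hq : ContDiff ℝ ∞ Hq := I.contDiff.comp ((cd_S2.mul cd_gq).mul contDiff_fst)
lemma cd_Vq : ContDiff ℝ ∞ Vq := (cd_S2.mul cd_Jq).sub (cd_C2.mul cd_Hq)

end

end Pool.Agent.H529Z.Bous
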