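import Mathlib
import Pool.Agent.H529Z.Bous.Ops

/-! Relabelling symmetry, parity and joint smoothness. -/

open Set Filter Topology
open scoped ContDiff

namespace Pool.Agent.H529Z.Bous

noncomputable section

/-- a relabelling of the interval -/
structure Rel where
  φ : ℝ → ℝ
  φ' : ℝ → ℝ
  cont : Continuous φ'
  der : ∀ r, HasDerivAt φ (φ' r) r
  maps : ∀ r ∈ Icc (-L) L, φ r ∈ Icc (-L) L
  ends : (φ (-L) = -L ∧ φ L = L) ∨ (φ (-L) = L ∧ φ L = -L)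

namespace Rel

lemma contφ (ρ : Rel) : Continuous ρ.φ :=
  continuous_iff_continuousAt.2 fun r => (ρ.der r).continuousAt

def C (ρ : Rel) (f : A) : A :=
  ⟨fun a => e f (ρ.φ a), (e_cont f).comp (ρ.contφ.comp continuous_subtype_val)⟩
def D (ρ : Rel) : A := ⟨fun a => ρ.φ' a, ρ.cont.comp continuous_subtype_val⟩

lemma e_C (ρ : Rel) (f : A) {r : ℝ} (h : r ∈ Icc (-L) L) : e (ρ.C f) r = e f (ρ.φ r) := by
  rw [e_of_mem _ h]; rfl
lemma e_D (ρ : Rel) {r : ℝ} (h : r ∈ Icc (-L) L) : e ρ.D r = ρ.φ' r := by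
  rw [e_of_mem _ h]; rfl

lemma C_add (ρ : Rel) (f g : A) : ρ.C (f + g) = ρ.C f + ρ.C g := rfl
lemma C_sub (ρ : Rel) (f g : A) : ρ.C (f - g) = ρ.C f - ρ.C g := rfl
lemma C_mul (ρ : Rel) (f g : A) : ρ.C (f * g) = ρ.C f * ρ.C g := rfl
lemma C_neg (ρ : Rel) (f : A) : ρ.C (-f) = -ρ.C f := rfl
lemma C_cosA (ρ : Rel) (f : A) : ρ.C (cosA f) = cosA (ρ.C f) := rfl
lemma C_sinA (ρ : Rel) (f : A) : ρ.C (sinA f) = sinA (ρ.C f) := rfl

lemma norm_C (ρ : Rel) (f : A) : ‖ρ.C f‖ ≤ ‖f‖ :=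
  norm_le_of_e (norm_nonneg _) fun r hr => by rw [ρ.e_C f hr]; exact e_le _ _

def T (ρ : Rel) : A →L[ℝ] A :=
  LinearMap.mkContinuous
    { toFun := fun f => ρ.C f * ρ.D
      map_add' := fun f g => by rw [C_add, add_mul]
      map_smul' := fun c f => by
        ext a
        show (c * e f (ρ.φ a)) * ρ.φ' a = c * (e f (ρ.φ a) * ρ.φ' a)
        ring } ‖ρ.D‖
    (fun f => by
      show ‖ρ.C f * ρ.D‖ ≤ ‖ρ.D‖ * ‖f‖
      rw [mul_comm ‖ρ.D‖]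
      exact (norm_mul_le _ _).trans (mul_le_mul_of_nonneg_right (ρ.norm_C f) (norm_nonneg _)))

lemma T_apply (ρ : Rel) (f : A) : ρ.T f = ρ.C f * ρ.D := rfl

lemma norm_T (ρ : Rel) (f : A) : ‖ρ.T f‖ ≤ ‖ρ.D‖ * ‖f‖ := by
  rw [T_apply, mul_comm ‖ρ.D‖]
  exact (norm_mul_le _ _).trans (mul_le_mul_of_nonneg_right (ρ.norm_C f) (norm_nonneg _))

lemma C_mul_T (ρ : Rel) (f g : A) : ρ.C f * ρ.T g = ρ.T (f * g) := by
  rw [T_apply, T_apply, C_mul, mul_assoc]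

lemma T_mul_C (ρ : Rel) (f g : A) : ρ.T f * ρ.C g = ρ.T (f * g) := by
  rw [mul_comm, C_mul_T, mul_comm]

lemma I_T (ρ : Rel) (f : A) : I (ρ.T f) = ρ.C (I f) := by
  have h1 : HD (ρ.C (I f)) (ρ.T f) := by
    intro r hr
    have h2 := ((prim_hasDerivAt f (ρ.φ r)).comp r (ρ.der r)).sub_const (prim f L / 2)
    have hr' := Ioo_subset_Icc_self hr
    rw [T_apply, e_mul, e_C _ _ hr', e_D _ hr']
    refine h2.congr_of_eventuallyEq ?_
    filter_upwards [Ioo_mem_nhds hr.1 hr.2] with s hs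
    have hs' := Ioo_subset_Icc_self hs
    rw [e_C _ _ hs', e_I _ (ρ.maps s hs')]
    rfl
  refine h1.I_eq ?_
  rw [e_C _ _ ⟨LL, le_rfl⟩, e_C _ _ ⟨le_rfl, LL⟩]
  rcases ρ.ends with ⟨h2, h3⟩ | ⟨h2, h3⟩
  · rw [h2, h3]; exact e_I_ends f
  · rw [h2, h3, add_comm]; exact e_I_ends f

def R (ρ : Rel) : E →L[ℝ] E := ρ.T.prodMap (ρ.T.prodMap ρ.T)

lemma R_apply (ρ : Rel) (x : E) : ρ.R x = (ρ.T x.1, ρ.T x.2.1, ρ.T x.2.2) := rfl

lemma norm_R (ρ : Rel) : ‖ρ.R‖ ≤ ‖ρ.D‖ := by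
  refine ContinuousLinearMap.opNorm_le_bound _ (norm_nonneg _) fun x => ?_
  rw [R_apply, Prod.norm_def, Prod.norm_def]
  have h1 : ‖x.1‖ ≤ ‖x‖ := norm_fst_le x
  have h2 : ‖x.2.1‖ ≤ ‖x‖ := (norm_fst_le x.2).trans (norm_snd_le x)
  have h3 : ‖x.2.2‖ ≤ ‖x‖ := (norm_snd_le x.2).trans (norm_snd_le x)
  exact max_le ((ρ.norm_T _).trans (by gcongr)) (max_le ((ρ.norm_T _).trans (by gcongr))
    ((ρ.norm_T _).trans (by gcongr)))

variable (ρ : Rel) (x : E)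

lemma Th_R : Th (ρ.R x) = ρ.C (Th x) := ρ.I_T _
lemma cc_R : cc (ρ.R x) = ρ.C (cc x) := by unfold cc; rw [Th_R, C_cosA]
lemma ss_R : ss (ρ.R x) = ρ.C (ss x) := by unfold ss; rw [Th_R, C_sinA]
lemma C2_R : C2 (ρ.R x) = ρ.C (C2 x) := by unfold C2; rw [cc_R, ss_R]; rfl
lemma S2_R : S2 (ρ.R x) = ρ.C (S2 x) := by unfold S2; rw [cc_R, ss_R]; rfl
lemma gq_R : gq (ρ.R x) = ρ.C (gq x) := by
  unfold gq; rw [C_neg, ← I_T]; rfl
lemma Aq_R : Aq (ρ.R x) = ρ.C (Aq x) := by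
  unfold Aq; rw [← I_T, ← C_mul_T, cc_R]; rfl
lemma Bq_R : Bq (ρ.R x) = ρ.C (Bq x) := by
  unfold Bq; rw [C_neg, ← I_T, ← C_mul_T, ss_R]; rfl
lemma Rq_R : Rq (ρ.R x) = ρ.C (Rq x) := by unfold Rq; rw [cc_R, ss_R, Aq_R, Bq_R]; rfl
lemma Sq_R : Sq (ρ.R x) = ρ.C (Sq x) := by unfold Sq; rw [cc_R, ss_R, Aq_R, Bq_R]; rfl
lemma Jq_R : Jq (ρ.R x) = ρ.C (Jq x) := by
  unfold Jq; rw [← I_T, ← C_mul_T, C2_R, gq_R]; rfl
lemma Hq_R : Hq (ρ.R x) = ρ.C (Hq x) := by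
  unfold Hq; rw [← I_T, ← C_mul_T, S2_R, gq_R]; rfl
lemma Wq_R : Wq (ρ.R x) = ρ.C (Wq x) := by unfold Wq; rw [C2_R, S2_R, Jq_R, Hq_R]; rfl
lemma Vq_R : Vq (ρ.R x) = ρ.C (Vq x) := by unfold Vq; rw [C2_R, S2_R, Jq_R, Hq_R]; rfl

lemma F_R : F (ρ.R x) = ρ.R (F x) := by
  unfold F
  rw [Wq_R, cc_R, Rq_R, R_apply, R_apply]
  simp only [C_mul_T, T_mul_C, map_add, map_sub, map_neg]

end Rel

/-! ### oddness -/

lemma cosA_neg (f : A) : cosA (-f) = cosA f := e_ext fun r _ => by simp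
lemma sinA_neg (f : A) : sinA (-f) = -sinA f := e_ext fun r _ => by simp

section
variable (x : E)
lemma Th_neg : Th (-x) = -Th x := by unfold Th; rw [← map_neg]; rfl
lemma cc_neg : cc (-x) = cc x := by unfold cc; rw [Th_neg, cosA_neg]
lemma ss_neg : ss (-x) = -ss x := by unfold ss; rw [Th_neg, sinA_neg]
lemma C2_neg : C2 (-x) = C2 x := by unfold C2; rw [cc_neg, ss_neg]; ring
lemma S2_neg : S2 (-x) = -S2 x := by unfold S2; rw [cc_neg, ss_neg]; ring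
lemma gq_neg : gq (-x) = -gq x := by
  unfold gq; rw [Prod.snd_neg, Prod.fst_neg, map_neg]
lemma Aq_neg : Aq (-x) = -Aq x := by
  unfold Aq; rw [cc_neg, Prod.snd_neg, Prod.snd_neg, mul_neg, map_neg]
lemma Bq_neg : Bq (-x) = Bq x := by
  unfold Bq; rw [ss_neg, Prod.snd_neg, Prod.snd_neg, neg_mul_neg]
lemma Rq_neg : Rq (-x) = Rq x := by unfold Rq; rw [cc_neg, ss_neg, Aq_neg, Bq_neg]; ring
lemma Sq_neg : Sq (-x) = -Sq x := by unfold Sq; rw [cc_neg, ss_neg, Aq_neg, Bq_neg]; ring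
lemma Jq_neg : Jq (-x) = Jq x := by
  unfold Jq; rw [C2_neg, gq_neg, Prod.fst_neg]; congr 1; ring
lemma Hq_neg : Hq (-x) = -Hq x := by
  unfold Hq; rw [S2_neg, gq_neg, Prod.fst_neg, ← map_neg]; congr 1; ring
lemma Wq_neg : Wq (-x) = Wq x := by unfold Wq; rw [C2_neg, S2_neg, Jq_neg, Hq_neg]; ring
lemma Vq_neg : Vq (-x) = -Vq x := by unfold Vq; rw [C2_neg, S2_neg, Jq_neg, Hq_neg]; ring
lemma F_neg : F (-x) = -F x := by
  unfold F
  rw [Wq_neg, cc_neg, Rq_neg]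
  simp only [Prod.fst_neg, Prod.snd_neg, Prod.neg_mk]
  refine Prod.ext ?_ (Prod.ext ?_ ?_) <;> simp only <;> ring
end

/-- the reflection -/
def refl : Rel where
  φ := fun r => -r
  φ' := fun _ => -1
  cont := continuous_const
  der := fun r => hasDerivAt_neg r
  maps := fun r hr => ⟨by linarith [hr.2], by linarith [hr.1]⟩
  ends := Or.inr ⟨neg_neg L, rfl⟩

/-- even states -/
def Sym (x : E) : Prop := refl.R x = -x

lemma Sol.sym {τ : ℝ} {x : ℝ → E} (hx : Sol F τ x) (h0 : Sym (x 0)) {t : ℝ} (ht : t ∈ Ico 0 τ) :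
    Sym (x t) := by
  have h1 : Sol F τ (fun t => refl.R (x t)) := fun s hs => by
    rw [Rel.F_R]
    exact refl.R.hasFDerivAt.comp_hasDerivAt s (hx s hs)
  have h2 : Sol F τ (fun t => -x t) := fun s hs => by
    rw [F_neg]
    exact (hx s hs).neg
  exact Sol.unique trunc_F h1 h2 h0 ht

lemma Sym.even {x : E} (h : Sym x) {q : E → A} (h1 : q (refl.R x) = refl.C (q x))
    (h2 : q (-x) = q x) {r : ℝ} (hr : r ∈ Icc (-L) L) : e (q x) (-r) = e (q x) r := by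
  rw [h, h2] at h1
  conv_rhs => rw [h1, Rel.e_C _ _ hr]
  rfl

lemma Sym.odd {x : E} (h : Sym x) {q : E → A} (h1 : q (refl.R x) = refl.C (q x))
    (h2 : q (-x) = -q x) {r : ℝ} (hr : r ∈ Icc (-L) L) : e (q x) (-r) = -e (q x) r := by
  rw [h, h2] at h1
  rw [← e_neg, h1, Rel.e_C _ _ hr]
  rfl

/-! ### joint smoothness -/

/-- a family of relabellings moving every interior point -/
def slide (σ : ℝ) (h : |σ| < 1 / 2) : Rel where
  φ := fun r => r + σ * (L ^ 2 - r ^ 2)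
  φ' := fun r => 1 - σ * (r + r)
  cont := by fun_prop
  der := fun r => by
    have := (hasDerivAt_id r).add (((hasDerivAt_pow 2 r).const_sub (L ^ 2)).const_mul σ)
    refine HasDerivAt.congr_deriv this ?_
    simp; ring
  maps := fun r hr => by
    obtain ⟨h1, h2⟩ := abs_lt.1 h
    have h3 := L_lt_one
    have h4 : 0 ≤ L - r := by linarith [hr.2]
    have h5 : 0 ≤ L + r := by linarith [hr.1]
    constructor
    · have : 0 ≤ (L + r) * (1 + σ * (L - r)) := mul_nonneg h5 (by nlinarith)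
      nlinarith
    · have : 0 ≤ (L - r) * (1 - σ * (L + r)) := mul_nonneg h4 (by nlinarith)
      nlinarith
  ends := Or.inl ⟨by ring, by ring⟩

/-- the coordinate -/
def idA : A := ⟨fun a => a, continuous_subtype_val⟩

lemma e_idA {r : ℝ} (h : r ∈ Icc (-L) L) : e idA r = r := by rw [e_of_mem _ h]; rfl
@[simp] lemma e_one (r : ℝ) : e 1 r = 1 := rfl

/-- initial state -/
def init {Γ Δ : ℝ → ℝ} (hΓ : ContDiff ℝ ∞ Γ) (hΔ : ContDiff ℝ ∞ Δ) : E :=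
  (1, nem Γ hΓ.continuous idA, nem Δ hΔ.continuous idA)

theorem smooth_q {Γ Δ : ℝ → ℝ} (hΓ : ContDiff ℝ ∞ Γ) (hΔ : ContDiff ℝ ∞ Δ) {T : ℝ} {x : ℝ → E}
    (hx : Sol F T x) (h0 : x 0 = init hΓ hΔ) {q : E → A} (hq : ContDiff ℝ ∞ q)
    (hqR : ∀ (ρ : Rel) z, q (ρ.R z) = ρ.C (q z)) {t0 b : ℝ} (ht0 : t0 ∈ Ioo 0 T)
    (hb : b ∈ Ioo (-L) L) :
    ContDiffAt ℝ ∞ (fun p : ℝ × ℝ => e (q (x p.1)) p.2) (t0, b) := by
  classical
  set R : ℝ → E →L[ℝ] E := fun σ => if h : |σ| < 1 / 2 then (slide σ h).R else 0 with hR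
  set u : ℝ → A := fun σ => idA + σ • ((L ^ 2) • (1 : A) - idA * idA) with hu
  set d : ℝ → A := fun σ => 1 - σ • (idA + idA) with hd
  have hu' : ContDiff ℝ ∞ u := contDiff_const.add (contDiff_id.smul contDiff_const)
  have hd' : ContDiff ℝ ∞ d := contDiff_const.sub (contDiff_id.smul contDiff_const)
  set y0 : ℝ → E := fun σ => (d σ, nem Γ hΓ.continuous (u σ) * d σ,
    nem Δ hΔ.continuous (u σ) * d σ) with hy0
  have hy : ContDiff ℝ ∞ y0 :=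
    hd'.prodMk ((((contDiff_nem hΓ).comp hu').mul hd').prodMk
      (((contDiff_nem hΔ).comp hu').mul hd'))
  have hb' := Ioo_subset_Icc_self hb
  have h1 := smooth_dep trunc_F hx R y0 hy (fun σ hσ => by
    have e1 : R σ = (slide σ hσ).R := dif_pos hσ
    have e2 : (slide σ hσ).D = d σ := e_ext fun r hr => by
      rw [Rel.e_D _ hr]
      simp only [hd, e_sub, e_one, e_smul, e_add, e_idA hr]
      rfl
    have e3 : ∀ (φ : ℝ → ℝ) (hφ : Continuous φ),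
        (slide σ hσ).C (nem φ hφ idA) = nem φ hφ (u σ) := fun φ hφ => e_ext fun r hr => by
      rw [Rel.e_C _ _ hr, e_nem, e_nem, e_idA ((slide σ hσ).maps r hr)]
      simp only [hu, e_sub, e_one, e_smul, e_add, e_mul, e_idA hr]
      congr 1
      show r + σ * (L ^ 2 - r ^ 2) = _
      ring
    rw [e1]
    refine ⟨(Rel.norm_R _).trans (norm_le_of_e (by norm_num) fun r hr => ?_),
      fun z => Rel.F_R _ z, ?_⟩
    · rw [Rel.e_D _ hr]
      show |1 - σ * (r + r)| ≤ 2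
      obtain ⟨h1, h2⟩ := abs_lt.1 hσ
      have h3 := L_lt_one
      rw [abs_le]
      constructor <;> nlinarith [hr.1, hr.2]
    · rw [h0, Rel.R_apply]
      simp only [init, Rel.T_apply, e2, e3, hy0]
      congr 1
      exact (one_mul _).symm) ht0
  have hpos : 0 < L ^ 2 - b ^ 2 := by nlinarith [hb.1, hb.2]
  set m : ℝ × ℝ → ℝ × ℝ := fun p => (p.1, (p.2 - b) / (L ^ 2 - b ^ 2)) with hm
  have hm1 : ContDiff ℝ ∞ m := contDiff_fst.prodMk ((contDiff_snd.sub contDiff_const).div_const _)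
  have hm2 : m (t0, b) = (t0, 0) := by simp [hm]
  rw [← hm2] at h1
  have h2 : ContDiffAt ℝ ∞ (fun p : ℝ × ℝ => ev b (q (R (m p).2 (x (m p).1)))) (t0, b) :=
    (ev b).contDiff.contDiffAt.comp _ (hq.contDiffAt.comp _ (h1.comp _ hm1.contDiffAt))
  refine h2.congr_of_eventuallyEq ?_
  have e2 : ∀ᶠ p : ℝ × ℝ in 𝓝 (t0, b), |(m p).2| < 1 / 2 := by
    have : ContinuousAt (fun p : ℝ × ℝ => |(m p).2|) (t0, b) :=
      (continuous_abs.comp (continuous_snd.comp hm1.continuous)).continuousAt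
    refine this.eventually (gt_mem_nhds ?_)
    simp [hm]
  filter_upwards [e2] with p hp
  have e1 : R (m p).2 = (slide _ hp).R := dif_pos hp
  rw [ev_apply, e1, hqR, Rel.e_C _ _ hb']
  congr 1
  show p.2 = b + (p.2 - b) / (L ^ 2 - b ^ 2) * (L ^ 2 - b ^ 2)
  field_simp
  ring

end

end Pool.Agent.H529Z.Bous
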