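import Mathlib
import Pool.Agent.H529Z.Bous.Rel
import Pool.Agent.H529Z.Bous.Real1

/-! Label and time derivatives of the derived quantities. -/

open Set Filter Topology
open scoped ContDiff

namespace Pool.Agent.H529Z.Bous

noncomputable section

section static
variable (x : E)

lemma sc_sq : ss x * ss x + cc x * cc x = 1 := sq_add _

lemma cd_Wq : ContDiff ℝ ∞ Wq := (cd_C2.mul cd_Jq).add (cd_S2.mul cd_Hq)

def Ad (x : E) : A := Hq x * Bq x - Jq x * Aq x + cc x * gq x * Rq x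
def Bd (x : E) : A := Jq x * Bq x + Hq x * Aq x - ss x * gq x * Rq x

lemma HD_Th : HD (Th x) x.1 := HD_I _
lemma HD_cc : HD (cc x) (-(ss x * x.1)) := (HD_Th x).cos
lemma HD_ss : HD (ss x) (cc x * x.1) := (HD_Th x).sin
lemma HD_C2 : HD (C2 x) (-(S2 x * x.1 + S2 x * x.1)) :=
  (((HD_cc x).mul (HD_cc x)).sub ((HD_ss x).mul (HD_ss x))).congr (by unfold S2; ring)
lemma HD_S2 : HD (S2 x) (C2 x * x.1 + C2 x * x.1) :=
  (((HD_ss x).mul (HD_cc x)).add ((HD_ss x).mul (HD_cc x))).congr (by unfold C2; ring)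
lemma HD_gq : HD (gq x) (-x.2.1) := (HD_I _).neg
lemma HD_Aq : HD (Aq x) (cc x * x.2.2) := HD_I _
lemma HD_Bq : HD (Bq x) (-(ss x * x.2.2)) := (HD_I _).neg
lemma HD_Rq : HD (Rq x) (Sq x * x.1) :=
  (((HD_cc x).mul (HD_Bq x)).add ((HD_ss x).mul (HD_Aq x))).congr (by unfold Sq; ring)
lemma HD_Jq : HD (Jq x) (C2 x * gq x * x.1) := HD_I _
lemma HD_Hq : HD (Hq x) (S2 x * gq x * x.1) := HD_I _
lemma HD_Vq : HD (Vq x) (Wq x * x.1 + Wq x * x.1) :=
  (((HD_S2 x).mul (HD_Jq x)).sub ((HD_C2 x).mul (HD_Hq x))).congr (by unfold Wq; ring)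
lemma HD_Wq : HD (Wq x) ((gq x - (Vq x + Vq x)) * x.1) :=
  (((HD_C2 x).mul (HD_Jq x)).add ((HD_S2 x).mul (HD_Hq x))).congr (by
    have h := sc_sq x
    unfold Vq
    have h2 : C2 x * C2 x + S2 x * S2 x = 1 := by
      unfold C2 S2
      linear_combination (ss x * ss x + cc x * cc x + 1) * h
    linear_combination (gq x * x.1) * h2)
lemma HD_Ad : HD (Ad x) (-(ss x * Vq x) * x.2.2 + cc x * (-(Wq x * x.2.2) - x.2.1 * Rq x)) :=
  ((((HD_Hq x).mul (HD_Bq x)).sub ((HD_Jq x).mul (HD_Aq x))).add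
    (((HD_cc x).mul (HD_gq x)).mul (HD_Rq x))).congr (by
    have h := sc_sq x
    unfold Vq Wq Rq Sq C2 S2
    linear_combination (x.2.2 * (Jq x * cc x + Hq x * ss x)) * h)
lemma HD_Bd : HD (Bd x) (-(cc x * Vq x * x.2.2 + ss x * (-(Wq x * x.2.2) - x.2.1 * Rq x))) :=
  ((((HD_Jq x).mul (HD_Bq x)).add ((HD_Hq x).mul (HD_Aq x))).sub
    (((HD_ss x).mul (HD_gq x)).mul (HD_Rq x))).congr (by
    have h := sc_sq x
    unfold Vq Wq Rq Sq C2 S2
    linear_combination (x.2.2 * (Jq x * ss x - Hq x * cc x)) * h)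

lemma mL : L ∈ Icc (-L) L := ⟨LL, le_rfl⟩
lemma mL' : -L ∈ Icc (-L) L := ⟨le_rfl, LL⟩
lemma m0 : (0:ℝ) ∈ Icc (-L) L := ⟨by linarith [L_pos], L_pos.le⟩

variable {x} (h : Sym x) {r : ℝ} (hr : r ∈ Icc (-L) L)
include h hr

lemma Sym.Th : e (Th x) (-r) = -e (Th x) r := h.odd (refl.Th_R x) (Th_neg x) hr
lemma Sym.cc : e (cc x) (-r) = e (cc x) r := h.even (refl.cc_R x) (cc_neg x) hr
lemma Sym.ss : e (ss x) (-r) = -e (ss x) r := h.odd (refl.ss_R x) (ss_neg x) hr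
lemma Sym.gq : e (gq x) (-r) = -e (gq x) r := h.odd (refl.gq_R x) (gq_neg x) hr
lemma Sym.Aq : e (Aq x) (-r) = -e (Aq x) r := h.odd (refl.Aq_R x) (Aq_neg x) hr
lemma Sym.Bq : e (Bq x) (-r) = e (Bq x) r := h.even (refl.Bq_R x) (Bq_neg x) hr
lemma Sym.Rq : e (Rq x) (-r) = e (Rq x) r := h.even (refl.Rq_R x) (Rq_neg x) hr
lemma Sym.Jq : e (Jq x) (-r) = e (Jq x) r := h.even (refl.Jq_R x) (Jq_neg x) hr
lemma Sym.Hq : e (Hq x) (-r) = -e (Hq x) r := h.odd (refl.Hq_R x) (Hq_neg x) hr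
lemma Sym.Vq : e (Vq x) (-r) = -e (Vq x) r := h.odd (refl.Vq_R x) (Vq_neg x) hr
lemma Sym.Ad : e (Ad x) (-r) = -e (Ad x) r := by
  simp only [Bous.Ad, e_add, e_sub, e_mul, h.Hq hr, h.Bq hr, h.Jq hr, h.Aq hr, h.cc hr, h.gq hr,
    h.Rq hr]
  ring
lemma Sym.Bd : e (Bd x) (-r) = e (Bd x) r := by
  simp only [Bous.Bd, e_add, e_sub, e_mul, h.Hq hr, h.Bq hr, h.Jq hr, h.Aq hr, h.ss hr, h.gq hr,
    h.Rq hr]
  ring

omit hr

lemma Sym.Jq_L : e (Bous.Jq x) L = 0 := by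
  have h1 : e (Bous.Jq x) L + e (Bous.Jq x) (-L) = 0 := e_I_ends _
  rw [h.Jq mL] at h1; linarith
lemma Sym.Bq_L : e (Bous.Bq x) L = 0 := by
  have h1 := e_I_ends (Bous.ss x * x.2.2)
  have h2 := h.Bq mL
  simp only [Bous.Bq, e_neg] at h2 ⊢
  linarith
lemma Sym.Th_0 : e (Bous.Th x) 0 = 0 := by have := h.Th m0; rw [neg_zero] at this; linarith
lemma Sym.gq_0 : e (Bous.gq x) 0 = 0 := by have := h.gq m0; rw [neg_zero] at this; linarith
lemma Sym.Hq_0 : e (Bous.Hq x) 0 = 0 := by have := h.Hq m0; rw [neg_zero] at this; linarith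

end static

/-! ### the data -/

/-- a cut-off profile with two derivatives -/
structure Data where
  b0 : ℝ → ℝ
  b1 : ℝ → ℝ
  b2 : ℝ → ℝ
  s0 : ContDiff ℝ ∞ b0
  s1 : ContDiff ℝ ∞ b1
  s2 : ContDiff ℝ ∞ b2
  d0 : ∀ r, HasDerivAt b0 (b1 r) r
  d1 : ∀ r, HasDerivAt b1 (b2 r) r
  p0 : ∀ r, b0 (-r) = b0 r
  p1 : ∀ r, b1 (-r) = -b1 r
  p2 : ∀ r, b2 (-r) = b2 r
  near : ∀ r, |r| ≤ 2 / 5 → b0 r = 1 ∧ b1 r = 0 ∧ b2 r = 0
  far : ∀ r, 3 / 4 ≤ |r| → b0 r = 0 ∧ b1 r = 0 ∧ b2 r = 0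
  nn : ∀ r, 0 ≤ b0 r
  le1 : ∀ r, b0 r ≤ 1
  dec : ∀ r, 0 ≤ r → b1 r ≤ 0

lemma exists_data : Nonempty Data := by
  set s := Real.smoothTransition with hs
  have c0 : ContDiff ℝ ∞ s := Real.smoothTransition.contDiff
  have c1 : ContDiff ℝ ∞ (deriv s) := (contDiff_infty_iff_deriv.1 c0).2
  have c2 : ContDiff ℝ ∞ (deriv (deriv s)) := (contDiff_infty_iff_deriv.1 c1).2
  have d0 : ∀ u, HasDerivAt s (deriv s u) u := fun u =>
    (c0.differentiable (by simp) u).hasDerivAt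
  have d1 : ∀ u, HasDerivAt (deriv s) (deriv (deriv s) u) u := fun u =>
    (c1.differentiable (by simp) u).hasDerivAt
  have du : ∀ r : ℝ, HasDerivAt (fun r : ℝ => 2 - 4 * r ^ 2) (-(8 * r)) r := fun r =>
    HasDerivAt.congr_deriv (((hasDerivAt_pow 2 r).const_mul 4).const_sub 2) (by simp; ring)
  have cu : ContDiff ℝ ∞ (fun r : ℝ => 2 - 4 * r ^ 2) := by fun_prop
  have flat : ∀ (c : ℝ) (U : Set ℝ), IsOpen U → (∀ u ∈ U, s u = c) →
      ∀ u ∈ U, deriv s u = 0 ∧ deriv (deriv s) u = 0 := by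
    intro c U hU hc
    have e1 : ∀ u ∈ U, deriv s u = 0 := fun u hu => by
      have : s =ᶠ[𝓝 u] fun _ => c := by
        filter_upwards [hU.mem_nhds hu] with v hv using hc v hv
      rw [this.deriv_eq]; simp
    intro u hu
    refine ⟨e1 u hu, ?_⟩
    have : deriv s =ᶠ[𝓝 u] fun _ => 0 := by
      filter_upwards [hU.mem_nhds hu] with v hv using e1 v hv
    rw [this.deriv_eq]; simp
  refine ⟨⟨fun r => s (2 - 4 * r ^ 2), fun r => deriv s (2 - 4 * r ^ 2) * (-(8 * r)),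
    fun r => deriv (deriv s) (2 - 4 * r ^ 2) * (64 * r ^ 2) - 8 * deriv s (2 - 4 * r ^ 2),
    c0.comp cu, (c1.comp cu).mul (by fun_prop),
    ((c2.comp cu).mul (by fun_prop)).sub (contDiff_const.mul (c1.comp cu)),
    fun r => (d0 _).comp r (du r), fun r => ?_, fun r => by simp, fun r => by simp,
    fun r => by simp, fun r hr => ?_, fun r hr => ?_, fun r => Real.smoothTransition.nonneg _,
    fun r => Real.smoothTransition.le_one _, fun r hr => ?_⟩⟩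
  · refine HasDerivAt.congr_deriv (((d1 _).comp r (du r)).mul
      ((hasDerivAt_id r).const_mul 8).neg) ?_
    simp only [Function.comp_apply]
    ring
  · have h1 : 2 - 4 * r ^ 2 ∈ Ioi (1:ℝ) := by
      rw [mem_Ioi, ← sq_abs]; nlinarith [abs_nonneg r]
    obtain ⟨h2, h3⟩ := flat 1 (Ioi 1) isOpen_Ioi
      (fun u hu => Real.smoothTransition.one_of_one_le (le_of_lt hu)) _ h1
    exact ⟨Real.smoothTransition.one_of_one_le (le_of_lt h1), by rw [h2]; ring,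
      by rw [h2, h3]; ring⟩
  · have h1 : 2 - 4 * r ^ 2 ∈ Iio (0:ℝ) := by
      rw [mem_Iio, ← sq_abs]; nlinarith [abs_nonneg r]
    obtain ⟨h2, h3⟩ := flat 0 (Iio 0) isOpen_Iio
      (fun u hu => Real.smoothTransition.zero_of_nonpos (le_of_lt hu)) _ h1
    exact ⟨Real.smoothTransition.zero_of_nonpos (le_of_lt h1), by rw [h2]; ring,
      by rw [h2, h3]; ring⟩
  · have h1 : 0 ≤ deriv s (2 - 4 * r ^ 2) := Real.smoothTransition.monotone.deriv_nonneg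
    nlinarith

namespace Data
variable (d : Data)

def Γ (r : ℝ) : ℝ := d.b0 r + r * d.b1 r
def Δ (r : ℝ) : ℝ := 2 * Real.sin r * d.b1 r - Real.cos r * d.b2 r
lemma cΓ : ContDiff ℝ ∞ d.Γ := d.s0.add (contDiff_id.mul d.s1)
lemma cΔ : ContDiff ℝ ∞ d.Δ :=
  ((contDiff_const.mul Real.contDiff_sin).mul d.s1).sub (Real.contDiff_cos.mul d.s2)
def x0 : E := init d.cΓ d.cΔ

lemma farL : d.b0 L = 0 ∧ d.b1 L = 0 ∧ d.b2 L = 0 :=
  d.far L (by rw [abs_of_pos L_pos]; exact L_gt.le)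
lemma farL' : d.b0 (-L) = 0 ∧ d.b1 (-L) = 0 ∧ d.b2 (-L) = 0 :=
  d.far (-L) (by rw [abs_neg, abs_of_pos L_pos]; exact L_gt.le)

lemma sym : Sym d.x0 := by
  unfold Sym x0 init
  rw [Rel.R_apply]
  refine Prod.ext ?_ (Prod.ext ?_ ?_) <;> refine e_ext fun r hr => ?_
  · simp only [Rel.T_apply, e_mul, Rel.e_C _ _ hr, Rel.e_D _ hr, Prod.fst_neg, e_neg, e_one]
    simp [refl]
  · simp only [Rel.T_apply, e_mul, Rel.e_C _ _ hr, Rel.e_D _ hr, Prod.fst_neg, Prod.snd_neg,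
      e_neg, e_nem, e_idA hr, e_idA (refl.maps r hr)]
    simp [refl, Γ, d.p0, d.p1]
  · simp only [Rel.T_apply, e_mul, Rel.e_C _ _ hr, Rel.e_D _ hr, Prod.snd_neg,
      e_neg, e_nem, e_idA hr, e_idA (refl.maps r hr)]
    simp [refl, Δ, d.p2, d.p1]

lemma I_of {φ : ℝ → ℝ} {f : A} (hφ : ∀ r ∈ Icc (-L) L, HasDerivAt φ (e f r) r)
    (hc : Continuous φ) (h0 : φ L + φ (-L) = 0) {r : ℝ} (hr : r ∈ Icc (-L) L) :
    e (I f) r = φ r := by
  have h1 : HD (nem φ hc idA) f := by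
    intro s hs
    refine (hφ s (Ioo_subset_Icc_self hs)).congr_of_eventuallyEq ?_
    filter_upwards [Ioo_mem_nhds hs.1 hs.2] with u hu
    rw [e_nem, e_idA (Ioo_subset_Icc_self hu)]
  rw [h1.I_eq (by rw [e_nem, e_nem, e_idA mL, e_idA mL']; exact h0), e_nem, e_idA hr]

variable {r : ℝ} (hr : r ∈ Icc (-L) L)
include hr

lemma Γ0 : e d.x0.2.1 r = d.Γ r := by show d.Γ (e idA r) = _; rw [e_idA hr]
lemma Δ0 : e d.x0.2.2 r = d.Δ r := by show d.Δ (e idA r) = _; rw [e_idA hr]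
lemma Th0 : e (Th d.x0) r = r :=
  I_of (φ := fun r => r) (f := 1) (fun s _ => hasDerivAt_id s) continuous_id (by ring) hr
lemma cc0 : e (cc d.x0) r = Real.cos r := by rw [cc, e_cosA, d.Th0 hr]
lemma ss0 : e (ss d.x0) r = Real.sin r := by rw [ss, e_sinA, d.Th0 hr]
lemma gq0 : e (gq d.x0) r = -(r * d.b0 r) := by
  rw [gq, e_neg, I_of (φ := fun r => r * d.b0 r) (fun s hs => ?_)
    (continuous_id.mul d.s0.continuous) (by simp [d.farL.1, d.farL'.1]) hr]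
  refine HasDerivAt.congr_deriv ((hasDerivAt_id s).mul (d.d0 s)) ?_
  rw [d.Γ0 hs]; simp [Γ]
lemma Aq0 : e (Aq d.x0) r = -(Real.cos r ^ 2 * d.b1 r) := by
  rw [Aq, I_of (φ := fun r => -(Real.cos r ^ 2 * d.b1 r)) (fun s hs => ?_)
    (((Real.continuous_cos.pow 2).mul d.s1.continuous).neg)
    (by simp [d.farL.2.1, d.farL'.2.1]) hr]
  refine HasDerivAt.congr_deriv (((Real.hasDerivAt_cos s).pow 2).mul (d.d1 s)).neg ?_
  rw [e_mul, d.Δ0 hs, d.cc0 hs]; simp [Δ]; ring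
lemma Bq0 : e (Bq d.x0) r = -d.b0 r + Real.sin r * Real.cos r * d.b1 r := by
  rw [Bq, e_neg, I_of (φ := fun r => d.b0 r - Real.sin r * Real.cos r * d.b1 r) (fun s hs => ?_)
    (d.s0.continuous.sub ((Real.continuous_sin.mul Real.continuous_cos).mul d.s1.continuous))
    (by simp [d.farL.2.1, d.farL'.2.1, d.farL.1, d.farL'.1]) hr]
  · ring
  refine HasDerivAt.congr_deriv ((d.d0 s).sub
    (((Real.hasDerivAt_sin s).mul (Real.hasDerivAt_cos s)).mul (d.d1 s))) ?_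
  rw [e_mul, d.Δ0 hs, d.ss0 hs]
  simp only [Δ, Pi.mul_apply]
  linear_combination (-d.b1 s) * Real.sin_sq_add_cos_sq s
lemma Rq0 : e (Rq d.x0) r = -(Real.cos r * d.b0 r) := by
  rw [Rq, e_add, e_mul, e_mul, d.cc0 hr, d.ss0 hr, d.Aq0 hr, d.Bq0 hr]; ring

end Data

/-! ### time derivatives -/

section dyn
variable {d : Data} {τ : ℝ} {x : ℝ → E} (hx : Sol F τ x) (h0 : x 0 = d.x0)
  {t : ℝ} (ht : t ∈ Ico 0 τ)
include hx ht

lemma dP : HasDerivAt (fun s => (x s).1) (Wq (x t) * (x t).1 + Wq (x t) * (x t).1) t :=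
  (ContinuousLinearMap.fst ℝ A (A × A)).hasFDerivAt.comp_hasDerivAt t (hx t ht)
lemma dΓΔ : HasDerivAt (fun s => (x s).2) (F (x t)).2 t :=
  (ContinuousLinearMap.snd ℝ A (A × A)).hasFDerivAt.comp_hasDerivAt t (hx t ht)
lemma dΓ : HasDerivAt (fun s => (x s).2.1) (cc (x t) * (x t).2.2) t :=
  (ContinuousLinearMap.fst ℝ A A).hasFDerivAt.comp_hasDerivAt t (dΓΔ hx ht)
lemma dΔ : HasDerivAt (fun s => (x s).2.2)
    (-(Wq (x t) * (x t).2.2) - (x t).2.1 * Rq (x t)) t :=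
  (ContinuousLinearMap.snd ℝ A A).hasFDerivAt.comp_hasDerivAt t (dΓΔ hx ht)
lemma dgq : HasDerivAt (fun s => gq (x s)) (-Aq (x t)) t :=
  (I.hasFDerivAt.comp_hasDerivAt t (dΓ hx ht)).neg

lemma contq {q : E → A} (hq : ContDiff ℝ ∞ q) (r : ℝ) :
    ContinuousOn (fun s => e (q (x s)) r) (Icc 0 t) :=
  (ev r).continuous.comp_continuousOn (hq.continuous.comp_continuousOn (hx.contOn ht.2))

include h0

lemma symt : Sym (x t) := hx.sym (h0 ▸ d.sym) ht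

lemma dTh : HasDerivAt (fun s => Th (x s)) (Vq (x t)) t := by
  refine HasDerivAt.congr_deriv (I.hasFDerivAt.comp_hasDerivAt t (dP hx ht)) ?_
  refine (HD_Vq _).I_eq ?_
  rw [(symt hx h0 ht).Vq mL]; ring
lemma dcc : HasDerivAt (fun s => cc (x s)) (-(ss (x t) * Vq (x t))) t :=
  hasDerivAt_cosA (dTh hx h0 ht)
lemma dss : HasDerivAt (fun s => ss (x s)) (cc (x t) * Vq (x t)) t :=
  hasDerivAt_sinA (dTh hx h0 ht)
lemma dAq : HasDerivAt (fun s => Aq (x s)) (Ad (x t)) t := by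
  refine HasDerivAt.congr_deriv
    (I.hasFDerivAt.comp_hasDerivAt t ((dcc hx h0 ht).mul (dΔ hx ht))) ?_
  refine (HD_Ad _).I_eq ?_
  rw [(symt hx h0 ht).Ad mL]; ring

lemma Aq_L : e (Aq (x t)) L = 0 := by
  obtain ⟨c, -, hc⟩ := lin_exp (f := fun s => e (Aq (x s)) L)
    (k := fun s => e (cc (x s) * gq (x s) * ss (x s)) L) ht.1 (fun s hs => by
      have hs' : s ∈ Ico 0 τ := ⟨hs.1, hs.2.trans_lt ht.2⟩
      refine HasDerivAt.congr_deriv (hasDerivAt_e (dAq hx h0 hs') L) ?_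
      simp only [Ad, Rq, e_add, e_sub, e_mul, (symt hx h0 hs').Jq_L, (symt hx h0 hs').Bq_L]
      ring) (contq hx ht ((cd_cc.mul cd_gq).mul cd_ss) L)
  rw [hc]
  simp only [h0, d.Aq0 mL, d.farL.2.1]
  ring

lemma Rq_L : e (Rq (x t)) L = 0 := by
  simp only [Rq, e_add, e_mul, (symt hx h0 ht).Bq_L, Aq_L hx h0 ht]; ring

lemma dBq : HasDerivAt (fun s => Bq (x s)) (Bd (x t)) t := by
  refine HasDerivAt.congr_deriv
    (I.hasFDerivAt.comp_hasDerivAt t ((dss hx h0 ht).mul (dΔ hx ht))).neg ?_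
  rw [← map_neg]
  refine (HD_Bd _).I_eq ?_
  rw [(symt hx h0 ht).Bd mL]
  simp only [Bd, e_add, e_sub, e_mul, (symt hx h0 ht).Bq_L, Aq_L hx h0 ht, Rq_L hx h0 ht]
  ring

lemma dRq : HasDerivAt (fun s => Rq (x s)) (Wq (x t) * Rq (x t)) t := by
  refine HasDerivAt.congr_deriv (((dcc hx h0 ht).mul (dBq hx h0 ht)).add
    ((dss hx h0 ht).mul (dAq hx h0 ht))) ?_
  have h := sc_sq (x t)
  unfold Ad Bd Vq Wq Rq C2 S2
  linear_combination (-(Bq (x t) * (Jq (x t) * cc (x t) + Hq (x t) * ss (x t))) +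
    Aq (x t) * (Jq (x t) * ss (x t) - Hq (x t) * cc (x t))) * h

lemma gq_L : e (gq (x t)) L = 0 := by
  obtain ⟨c, -, hc⟩ := lin_exp (f := fun s => e (gq (x s)) L) (k := fun _ => 0) ht.1
    (fun s hs => by
      have hs' : s ∈ Ico 0 τ := ⟨hs.1, hs.2.trans_lt ht.2⟩
      refine HasDerivAt.congr_deriv (hasDerivAt_e (dgq hx hs') L) ?_
      rw [e_neg, Aq_L hx h0 hs']; ring) continuousOn_const
  rw [hc]
  simp only [h0, d.gq0 mL, d.farL.1]
  ring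

lemma C2_L : e (C2 (x t)) L = 0 := by
  obtain ⟨c, -, hc⟩ := lin_exp (f := fun s => e (C2 (x s)) L)
    (k := fun s => e (S2 (x s) * Hq (x s) + S2 (x s) * Hq (x s)) L) ht.1 (fun s hs => by
      have hs' : s ∈ Ico 0 τ := ⟨hs.1, hs.2.trans_lt ht.2⟩
      refine HasDerivAt.congr_deriv (hasDerivAt_e (((dcc hx h0 hs').mul (dcc hx h0 hs')).sub
        ((dss hx h0 hs').mul (dss hx h0 hs'))) L) ?_
      simp only [Vq, S2, e_add, e_sub, e_mul, e_neg, (symt hx h0 hs').Jq_L]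
      ring) (contq hx ht ((cd_S2.mul cd_Hq).add (cd_S2.mul cd_Hq)) L)
  rw [hc]
  simp only [h0, C2, e_sub, e_mul, d.cc0 mL, d.ss0 mL]
  unfold L
  rw [Real.cos_pi_div_four, Real.sin_pi_div_four]; ring

lemma Vq_L : e (Vq (x t)) L = 0 := by
  simp only [Vq, e_sub, e_mul, (symt hx h0 ht).Jq_L, C2_L hx h0 ht]; ring

lemma Th_L : e (Th (x t)) L = L := by
  have := constant_of_has_deriv_right_zero (f := fun s => e (Th (x s)) L) (a := 0) (b := t)
    (contq hx ht cd_Th L) (fun s hs => by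
      have hs' : s ∈ Ico 0 τ := ⟨hs.1, hs.2.trans ht.2⟩
      have := hasDerivAt_e (dTh hx h0 hs') L
      rw [Vq_L hx h0 hs'] at this
      exact this.hasDerivWithinAt) t ⟨ht.1, le_rfl⟩
  rw [this, h0, d.Th0 mL]

lemma Th_L' : e (Th (x t)) (-L) = -L := by rw [(symt hx h0 ht).Th mL, Th_L hx h0 ht]

lemma P_pos (r : ℝ) : 0 < e (x t).1 r := by
  obtain ⟨c, hc0, hc⟩ := lin_exp (f := fun s => e (x s).1 r)
    (k := fun s => e (Wq (x s) + Wq (x s)) r) ht.1 (fun s hs => by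
      have hs' : s ∈ Ico 0 τ := ⟨hs.1, hs.2.trans_lt ht.2⟩
      refine HasDerivAt.congr_deriv (hasDerivAt_e (dP hx hs') r) ?_
      simp only [e_add, e_mul]
      ring) (contq hx ht (cd_Wq.add cd_Wq) r)
  rw [hc, h0]
  show 0 < 1 * c
  linarith

lemma Th_strictMono : StrictMonoOn (e (Th (x t))) (Icc (-L) L) := by
  refine strictMonoOn_of_hasDerivWithinAt_pos (convex_Icc _ _) (e_cont _).continuousOn
    (f' := e (x t).1) (fun r hr => ?_) (fun r _ => P_pos hx h0 ht r)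
  rw [interior_Icc] at hr
  exact (HD_Th _ r hr).hasDerivWithinAt

lemma far_zero {r : ℝ} (hr : r ∈ Icc (-L) L) (h : 3 / 4 ≤ |r|) :
    e (x t).2.1 r = 0 ∧ e (x t).2.2 r = 0 := by
  obtain ⟨M1, hM1⟩ := isCompact_Icc.exists_bound_of_continuousOn
    (contq hx ht cd_Wq r)
  obtain ⟨M2, hM2⟩ := isCompact_Icc.exists_bound_of_continuousOn (contq hx ht cd_Rq r)
  have key := eq_zero_of_abs_deriv_le_mul_abs_self_of_eq_zero_right
    (f := fun s => (e (x s).2.1 r, e (x s).2.2 r))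
    (f' := fun s => (e (cc (x s) * (x s).2.2) r,
      e (-(Wq (x s) * (x s).2.2) - (x s).2.1 * Rq (x s)) r)) (K := 1 + M1 + M2) (a := 0) (b := t)
    ((contq hx ht (q := fun z => z.2.1) (contDiff_fst.comp contDiff_snd) r).prodMk
      (contq hx ht (q := fun z => z.2.2) (contDiff_snd.comp contDiff_snd) r))
    (fun s hs => by
      have hs' : s ∈ Ico 0 τ := ⟨hs.1, hs.2.trans ht.2⟩
      exact ((hasDerivAt_e (dΓ hx hs') r).prodMk (hasDerivAt_e (dΔ hx hs') r)).hasDerivWithinAt)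
    (by
      obtain ⟨h1, h2, h3⟩ := d.far r h
      simp only [h0, d.Γ0 hr, d.Δ0 hr, Data.Γ, Data.Δ, h1, h2, h3]
      simp)
    (fun s hs => by
      have hs' := Ico_subset_Icc_self hs
      have h1 := hM1 s hs'
      have h2 := hM2 s hs'
      have hM1' : 0 ≤ M1 := (norm_nonneg _).trans h1
      have hM2' : 0 ≤ M2 := (norm_nonneg _).trans h2
      set n := ‖(e (x s).2.1 r, e (x s).2.2 r)‖ with hn
      have h3 : |e (x s).2.1 r| ≤ n := norm_fst_le (e (x s).2.1 r, e (x s).2.2 r)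
      have h4 : |e (x s).2.2 r| ≤ n := norm_snd_le (e (x s).2.1 r, e (x s).2.2 r)
      have hn0 : 0 ≤ n := norm_nonneg _
      rw [Real.norm_eq_abs] at h1 h2
      rw [Prod.norm_def]
      simp only [Real.norm_eq_abs, e_mul, e_sub, e_neg]
      refine max_le ?_ ?_
      · rw [abs_mul]
        have : |e (cc (x s)) r| ≤ 1 := Real.abs_cos_le_one _
        nlinarith [abs_nonneg (e (cc (x s)) r), abs_nonneg (e (x s).2.2 r)]
      · refine (abs_sub _ _).trans ?_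
        rw [abs_neg, abs_mul, abs_mul]
        have h5 := mul_le_mul h1 h4 (abs_nonneg _) hM1'
        have h6 := mul_le_mul h3 h2 (abs_nonneg _) hn0
        nlinarith) t ⟨ht.1, le_rfl⟩
  exact Prod.ext_iff.1 key

lemma far_zero' {r : ℝ} (hr : r ∈ Icc (3 / 4) L) :
    e (gq (x t)) r = 0 ∧ e (Rq (x t)) r = 0 := by
  have hr' : r ∈ Icc (-L) L := ⟨by linarith [hr.1, L_pos], hr.2⟩
  have hz : ∀ s ∈ uIcc r L, e (x t).2.1 s = 0 ∧ e (x t).2.2 s = 0 := fun s hs => by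
    rw [uIcc_of_le hr.2] at hs
    exact far_zero hx h0 ht ⟨hr'.1.trans hs.1, hs.2⟩
      (by rw [abs_of_nonneg (by linarith [hr.1, hs.1])]; exact hr.1.trans hs.1)
  have key : ∀ {f f' : A}, HD f f' → (∀ s ∈ uIcc r L, e f' s = 0) → e f L = 0 → e f r = 0 := by
    intro f f' h1 h2 h3
    have := h1.integral hr' mL hr.2
    rw [intervalIntegral.integral_congr (g := fun _ => 0) h2] at this
    simp only [intervalIntegral.integral_zero] at this
    linarith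
  have hA := key (HD_Aq _) (fun s hs => by rw [e_mul, (hz s hs).2, mul_zero]) (Aq_L hx h0 ht)
  have hB := key (HD_Bq _) (fun s hs => by rw [e_neg, e_mul, (hz s hs).2, mul_zero, neg_zero])
    (symt hx h0 ht).Bq_L
  refine ⟨key (HD_gq _) (fun s hs => by rw [e_neg, (hz s hs).1, neg_zero]) (gq_L hx h0 ht), ?_⟩
  rw [Rq, e_add, e_mul, e_mul, hA, hB]; ring

end dyn

end

end Pool.Agent.H529Z.Bous
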