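import Mathlib
import Pool.Agent.H529Z.Bous.Lag

/-! Sign conditions and the continuation bound. -/

open Set Filter Topology
open scoped ContDiff

namespace Pool.Agent.H529Z.Bous

noncomputable section

lemma HD.le {f f' g g' : A} (hf : HD f f') (hg : HD g g') {a b k : ℝ} (ha : a ∈ Icc (-L) L)
    (hb : b ∈ Icc (-L) L) (hab : a ≤ b) (h : ∀ s ∈ Icc a b, e f' s ≤ k * e g' s) :
    e f b - e f a ≤ k * (e g b - e g a) := by
  rw [← hf.integral ha hb hab, ← hg.integral ha hb hab, ← intervalIntegral.integral_const_mul]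
  exact intervalIntegral.integral_mono_on hab ((e_cont _).intervalIntegrable _ _)
    ((continuous_const.mul (e_cont _)).intervalIntegrable _ _) h

lemma HD.anti {f f' : A} (hf : HD f f') {a b : ℝ} (ha : a ∈ Icc (-L) L)
    (hb : b ∈ Icc (-L) L) (hab : a ≤ b) (h : ∀ s ∈ Icc a b, e f' s ≤ 0) : e f b ≤ e f a := by
  have := hf.le hf (k := 0) ha hb hab (fun s hs => by simpa using h s hs)
  linarith

lemma sub0 {r : ℝ} (hr : r ∈ Icc 0 L) : r ∈ Icc (-L) L := ⟨by linarith [hr.1, L_pos], hr.2⟩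

lemma e_C2 (x : E) (r : ℝ) : e (C2 x) r = Real.cos (2 * e (Th x) r) := by
  rw [Real.cos_two_mul']; simp only [C2, cc, ss, e_sub, e_mul, e_cosA, e_sinA]; ring
lemma e_S2 (x : E) (r : ℝ) : e (S2 x) r = Real.sin (2 * e (Th x) r) := by
  rw [Real.sin_two_mul]; simp only [S2, cc, ss, e_add, e_mul, e_cosA, e_sinA]; ring

/-- positive half -/
def posK : C(K, K) := ⟨fun a => ⟨max a 0, ⟨le_max_of_le_left a.2.1, max_le a.2.2 L_pos.le⟩⟩,
  (continuous_subtype_val.max continuous_const).subtype_mk _⟩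

/-- size of the negative part on the positive half -/
def npart (f : A) : ℝ :=
  ‖nem (fun y => max (-y) 0) (continuous_neg.max continuous_const) (f.comp posK)‖

lemma npart_cont : Continuous npart :=
  continuous_norm.comp ((ContinuousMap.continuous_postcomp _).comp
    (ContinuousMap.continuous_precomp posK))

lemma npart_nonneg (f : A) : 0 ≤ npart f := norm_nonneg _

lemma e_comp_pos (f : A) {r : ℝ} (hr : r ∈ Icc (-L) L) : e (f.comp posK) r = e f (max r 0) := by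
  rw [e_of_mem _ hr]; exact (e_coe f (posK ⟨r, hr⟩)).symm

lemma npart_le (f : A) {r : ℝ} (hr : r ∈ Icc 0 L) : -npart f ≤ e f r := by
  have h1 := e_le (nem (fun y => max (-y) 0) (continuous_neg.max continuous_const)
    (f.comp posK)) r
  rw [e_nem, e_comp_pos _ (sub0 hr), max_eq_left hr.1] at h1
  have h2 := le_abs_self (max (-e f r) 0)
  have h3 := le_max_left (-e f r) 0
  unfold npart
  linarith

lemma le_npart (f : A) {c : ℝ} (hc : 0 ≤ c) (h : ∀ r ∈ Icc 0 L, -c ≤ e f r) : npart f ≤ c := by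
  refine norm_le_of_e hc fun r hr => ?_
  rw [e_nem, e_comp_pos _ hr, abs_of_nonneg (le_max_right _ _)]
  refine max_le ?_ hc
  have := h (max r 0) ⟨le_max_right _ _, max_le hr.2 L_pos.le⟩
  linarith

section dyn
variable {d : Data} {τ : ℝ} {x : ℝ → E} (hx : Sol F τ x) (h0 : x 0 = d.x0)
  {t : ℝ} (ht : t ∈ Ico 0 τ)
include hx ht

lemma bddq {q : E → A} (hq : ContDiff ℝ ∞ q) : ∃ M, 0 ≤ M ∧ ∀ s ∈ Icc 0 t, ‖q (x s)‖ ≤ M := by
  obtain ⟨M, hM⟩ := isCompact_Icc.exists_bound_of_continuousOn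
    (hq.continuous.comp_continuousOn (hx.contOn ht.2))
  exact ⟨M, (norm_nonneg _).trans (hM 0 ⟨le_rfl, ht.1⟩), hM⟩

include h0

lemma Th_mem' {r : ℝ} (hr : r ∈ Icc (-L) L) : e (Th (x t)) r ∈ Icc (-L) L := by
  have h := (Th_strictMono hx h0 ht).monotoneOn
  exact ⟨by rw [← Th_L' hx h0 ht]; exact h mL' hr hr.1,
    by conv_rhs => rw [← Th_L hx h0 ht]
       exact h hr mL hr.2⟩

section
variable {r : ℝ} (hr : r ∈ Icc 0 L)
include hr

lemma Th_mem : e (Th (x t)) r ∈ Icc 0 L := by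
  have h := (Th_strictMono hx h0 ht).monotoneOn
  exact ⟨by rw [← (symt hx h0 ht).Th_0]; exact h m0 (sub0 hr) hr.1,
    (Th_mem' hx h0 ht (sub0 hr)).2⟩

lemma cc_ge : 1 / 2 ≤ e (cc (x t)) r := by
  have h := Th_mem hx h0 ht hr
  have h1 := Real.one_sub_sq_div_two_le_cos (x := e (Th (x t)) r)
  rw [cc, e_cosA]
  nlinarith [h.1, h.2, L_lt_one]

lemma C2_nonneg : 0 ≤ e (C2 (x t)) r := by
  have h := Th_mem hx h0 ht hr
  rw [e_C2]
  unfold L at h
  exact Real.cos_nonneg_of_neg_pi_div_two_le_of_le (by linarith [h.1, Real.pi_pos])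
    (by linarith [h.2])

lemma S2_nonneg : 0 ≤ e (S2 (x t)) r := by
  have h := Th_mem hx h0 ht hr
  rw [e_S2]
  unfold L at h
  exact Real.sin_nonneg_of_nonneg_of_le_pi (by linarith [h.1]) (by linarith [h.2, Real.pi_pos])

lemma Rq_nonpos : e (Rq (x t)) r ≤ 0 := by
  obtain ⟨c, hc0, hc⟩ := lin_exp (f := fun s => e (Rq (x s)) r)
    (k := fun s => e (Wq (x s)) r) ht.1 (fun s hs =>
      hasDerivAt_e (dRq hx h0 ⟨hs.1, hs.2.trans_lt ht.2⟩) r) (contq hx ht cd_Wq r)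
  rw [hc]
  simp only [h0, d.Rq0 (sub0 hr)]
  have h1 : 0 ≤ Real.cos r := by
    unfold L at hr
    exact Real.cos_nonneg_of_neg_pi_div_two_le_of_le (by linarith [hr.1, Real.pi_pos])
      (by linarith [hr.2, Real.pi_pos])
  have := mul_nonneg (mul_nonneg h1 (d.nn r)) hc0.le
  linarith

end

lemma signs {r : ℝ} (hr : r ∈ Icc 0 L) : e (gq (x t)) r ≤ 0 ∧ 0 ≤ e (Aq (x t)) r := by
  obtain ⟨M1, hM1, h1⟩ := bddq hx ht cd_Rq
  obtain ⟨M2, hM2, h2⟩ := bddq hx ht cd_Hq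
  obtain ⟨M3, hM3, h3⟩ := bddq hx ht cd_Jq
  have hc := hx.contOn ht.2
  have key := coop (ι := Icc 0 L ⊕ Icc 0 L)
    (x := Sum.elim (fun r s => e (-gq (x s)) r) (fun r s => e (Aq (x s)) r))
    (x' := Sum.elim (fun r s => e (Aq (x s)) r) (fun r s => e (Ad (x s)) r))
    (n := fun s => npart (-gq (x s)) + npart (Aq (x s))) (C := 1 + 4 * M1 + 2 * (M2 + M3)) ht.1
    (by positivity)
    ((npart_cont.comp_continuousOn (cd_gq.neg.continuous.comp_continuousOn hc)).add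
      (npart_cont.comp_continuousOn (cd_Aq.continuous.comp_continuousOn hc)))
    (fun s _ => add_nonneg (npart_nonneg _) (npart_nonneg _))
    (fun i s hs => by
      have hs' : s ∈ Ico 0 τ := ⟨hs.1, hs.2.trans_lt ht.2⟩
      rcases i with r | r
      · have := hasDerivAt_e (dgq hx hs').neg r
        rw [neg_neg] at this
        exact this
      · exact hasDerivAt_e (dAq hx h0 hs') r)
    (fun i => by
      rcases i with r | r
      · show 0 ≤ e (-gq (x 0)) r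
        rw [e_neg, h0, d.gq0 (sub0 r.2), neg_neg]
        exact mul_nonneg r.2.1 (d.nn r)
      · show 0 ≤ e (Aq (x 0)) r
        rw [h0, d.Aq0 (sub0 r.2)]
        have := d.dec r r.2.1
        nlinarith [sq_nonneg (Real.cos r)])
    (fun i s hs hneg => by
      have hs' : s ∈ Ico 0 τ := ⟨hs.1, hs.2.trans_lt ht.2⟩
      have n1 := npart_nonneg (-gq (x s))
      have n2 := npart_nonneg (Aq (x s))
      rcases i with r | r
      · show -((1 + 4 * M1 + 2 * (M2 + M3)) * (npart (-gq (x s)) + npart (Aq (x s)))) ≤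
          e (Aq (x s)) r
        have := npart_le (Aq (x s)) r.2
        nlinarith [mul_nonneg hM1 n1, mul_nonneg hM1 n2, mul_nonneg hM2 n1, mul_nonneg hM2 n2,
          mul_nonneg hM3 n1, mul_nonneg hM3 n2]
      · show -((1 + 4 * M1 + 2 * (M2 + M3)) * (npart (-gq (x s)) + npart (Aq (x s)))) ≤
          e (Ad (x s)) r
        have hneg' : e (Aq (x s)) r < 0 := hneg
        set n := npart (-gq (x s)) + npart (Aq (x s)) with hn
        have hn0 : 0 ≤ n := by positivity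
        have hg : ∀ u ∈ Icc 0 L, e (gq (x s)) u ≤ n := fun u hu => by
          have := npart_le (-gq (x s)) hu
          rw [e_neg] at this; linarith
        have hA : -n ≤ e (Aq (x s)) r := by
          have := npart_le (Aq (x s)) r.2
          linarith
        have hH : e (Hq (x s)) r ≤ n := by
          have h4 := (HD_Hq (x s)).le (HD_Th (x s)) (k := n) m0 (sub0 r.2) r.2.1 (fun u hu => by
            have hu' : u ∈ Icc 0 L := ⟨hu.1, hu.2.trans r.2.2⟩
            rw [e_mul, e_mul]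
            refine mul_le_mul_of_nonneg_right ?_ (P_pos hx h0 hs' u).le
            have h5 := S2_nonneg hx h0 hs' hu'
            have h6 : e (S2 (x s)) u ≤ 1 := by rw [e_S2]; exact Real.sin_le_one _
            nlinarith [hg u hu'])
          rw [(symt hx h0 hs').Hq_0, (symt hx h0 hs').Th_0] at h4
          have h5 := (Th_mem hx h0 hs' r.2).2
          nlinarith [L_lt_one]
        have hc1 := cc_ge hx h0 hs' r.2
        have hc2 : e (cc (x s)) r ≤ 1 := Real.cos_le_one _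
        have hs2 : |e (ss (x s)) r| ≤ 1 := Real.abs_sin_le_one _
        have hR := Rq_nonpos hx h0 hs' r.2
        have hR2 := (abs_le.1 ((e_le _ r).trans (h1 s hs))).1
        have hH2 := (e_le _ r).trans (h2 s hs)
        have hJ2 := (e_le _ r).trans (h3 s hs)
        have hid : e (cc (x s)) r * e (Ad (x s)) r =
            (e (Hq (x s)) r + e (cc (x s)) r ^ 2 * e (gq (x s)) r) * e (Rq (x s)) r
            - (e (ss (x s)) r * e (Hq (x s)) r + e (cc (x s)) r * e (Jq (x s)) r)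
              * e (Aq (x s)) r := by
          simp only [Ad, Rq, e_add, e_sub, e_mul]; ring
        have h7 : e (Hq (x s)) r + e (cc (x s)) r ^ 2 * e (gq (x s)) r ≤ 2 * n := by
          have : e (cc (x s)) r ^ 2 ≤ 1 := by nlinarith
          nlinarith [hg r r.2, sq_nonneg (e (cc (x s)) r)]
        have h8 : -(2 * n * M1) ≤
            (e (Hq (x s)) r + e (cc (x s)) r ^ 2 * e (gq (x s)) r) * e (Rq (x s)) r := by
          nlinarith
        have h9 : -(M2 + M3) ≤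
            e (ss (x s)) r * e (Hq (x s)) r + e (cc (x s)) r * e (Jq (x s)) r := by
          have a1 : |e (ss (x s)) r * e (Hq (x s)) r| ≤ 1 * M2 := by
            rw [abs_mul]; exact mul_le_mul hs2 hH2 (abs_nonneg _) zero_le_one
          have a2 : |e (cc (x s)) r * e (Jq (x s)) r| ≤ 1 * M3 := by
            rw [abs_mul]
            exact mul_le_mul (Real.abs_cos_le_one _) hJ2 (abs_nonneg _) zero_le_one
          linarith [(abs_le.1 a1).1, (abs_le.1 a2).1]
        have h10 : (e (ss (x s)) r * e (Hq (x s)) r + e (cc (x s)) r * e (Jq (x s)) r)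
            * e (Aq (x s)) r ≤ (M2 + M3) * n := by nlinarith
        by_contra hcon
        push Not at hcon
        have h11 : 0 ≤ (1 + 4 * M1 + 2 * (M2 + M3)) * n := by positivity
        nlinarith)
    (fun s _ c hc h => by
      have a1 := le_npart (-gq (x s)) hc (fun r hr => h (Sum.inl ⟨r, hr⟩))
      have a2 := le_npart (Aq (x s)) hc (fun r hr => h (Sum.inr ⟨r, hr⟩))
      show npart (-gq (x s)) + npart (Aq (x s)) ≤ 2 * c
      linarith)
  have a1 : 0 ≤ e (-gq (x t)) r := key (Sum.inl ⟨r, hr⟩) t ⟨ht.1, le_rfl⟩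
  rw [e_neg] at a1
  exact ⟨by linarith, key (Sum.inr ⟨r, hr⟩) t ⟨ht.1, le_rfl⟩⟩

lemma Jq_anti {a b : ℝ} (ha : 0 ≤ a) (hab : a ≤ b) (hb : b ≤ L) :
    e (Jq (x t)) b ≤ e (Jq (x t)) a :=
  (HD_Jq _).anti (sub0 ⟨ha, hab.trans hb⟩) (sub0 ⟨ha.trans hab, hb⟩) hab fun s hs => by
    have hs' : s ∈ Icc 0 L := ⟨ha.trans hs.1, hs.2.trans hb⟩
    rw [e_mul, e_mul]
    exact mul_nonpos_of_nonpos_of_nonneg (mul_nonpos_of_nonneg_of_nonpos
      (C2_nonneg hx h0 ht hs') (signs hx h0 ht hs').1) (P_pos hx h0 ht s).le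

section
variable {r : ℝ} (hr : r ∈ Icc 0 L)
include hr

lemma Jq_nonneg : 0 ≤ e (Jq (x t)) r := by
  rw [← (symt hx h0 ht).Jq_L]; exact Jq_anti hx h0 ht hr.1 hr.2 le_rfl

lemma Hq_nonpos : e (Hq (x t)) r ≤ 0 := by
  rw [← (symt hx h0 ht).Hq_0]
  exact (HD_Hq _).anti m0 (sub0 hr) hr.1 fun s hs => by
    have hs' : s ∈ Icc 0 L := ⟨hs.1, hs.2.trans hr.2⟩
    rw [e_mul, e_mul]
    exact mul_nonpos_of_nonpos_of_nonneg (mul_nonpos_of_nonneg_of_nonpos
      (S2_nonneg hx h0 ht hs') (signs hx h0 ht hs').1) (P_pos hx h0 ht s).le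

lemma Vq_ge : e (S2 (x t)) r * e (Jq (x t)) r ≤ e (Vq (x t)) r := by
  rw [Vq, e_sub, e_mul, e_mul]
  nlinarith [C2_nonneg hx h0 ht hr, Hq_nonpos hx h0 ht hr]

lemma Vq_nonneg : 0 ≤ e (Vq (x t)) r :=
  (mul_nonneg (S2_nonneg hx h0 ht hr) (Jq_nonneg hx h0 ht hr)).trans (Vq_ge hx h0 ht hr)

lemma Wq_le : e (Wq (x t)) r ≤ e (Jq (x t)) r := by
  rw [Wq, e_add, e_mul, e_mul]
  have h1 : e (C2 (x t)) r ≤ 1 := by rw [e_C2]; exact Real.cos_le_one _
  nlinarith [S2_nonneg hx h0 ht hr, Hq_nonpos hx h0 ht hr, Jq_nonneg hx h0 ht hr]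

lemma Th_mono_t {s : ℝ} (hs : s ∈ Icc 0 t) : e (Th (x s)) r ≤ e (Th (x t)) r :=
  mono_of_deriv (f := fun s => e (Th (x s)) r) hs.2
    (fun u hu => hasDerivAt_e (dTh hx h0 ⟨hs.1.trans hu.1, hu.2.trans_lt ht.2⟩) r)
    (fun u hu => Vq_nonneg hx h0 ⟨hs.1.trans hu.1, hu.2.trans_lt ht.2⟩ hr)

lemma gq_anti_t {s : ℝ} (hs : s ∈ Icc 0 t) : e (gq (x t)) r ≤ e (gq (x s)) r := by
  have := mono_of_deriv (f := fun s => e (-gq (x s)) r) hs.2
    (fun u hu => hasDerivAt_e (dgq hx ⟨hs.1.trans hu.1, hu.2.trans_lt ht.2⟩).neg r)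
    (fun u hu => by
      rw [neg_neg]; exact (signs hx h0 ⟨hs.1.trans hu.1, hu.2.trans_lt ht.2⟩ hr).2)
  simp only [e_neg] at this
  linarith

end

lemma Wq_0 : e (Wq (x t)) 0 = e (Jq (x t)) 0 := by
  rw [Wq, e_add, e_mul, e_mul, e_C2, (symt hx h0 ht).Hq_0, (symt hx h0 ht).Th_0]; simp

lemma norm_I_le {f : A} {M : ℝ} (hM : 0 ≤ M)
    (h : ∀ s ∈ Icc (-L) L, |e f s| ≤ M * e (x t).1 s) : ‖I f‖ ≤ 3 * M := by
  have key : ∀ r ∈ Icc (-L) L, |e (I f) r - e (I f) (-L)| ≤ 2 * M := fun r hr => by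
    have a1 := (HD_I f).le (HD_Th (x t)) (k := M) mL' hr hr.1 (fun s hs =>
      (abs_le.1 (h s ⟨hs.1, hs.2.trans hr.2⟩)).2)
    have a2 := (HD_I f).neg.le (HD_Th (x t)) (k := M) mL' hr hr.1 (fun s hs => by
      have := (abs_le.1 (h s ⟨hs.1, hs.2.trans hr.2⟩)).1
      rw [e_neg]; linarith)
    rw [Th_L' hx h0 ht] at a1 a2
    rw [e_neg, e_neg] at a2
    have a3 := (Th_mem' hx h0 ht hr).2
    have a4 : M * (e (Th (x t)) r - -L) ≤ M * 2 :=
      mul_le_mul_of_nonneg_left (by linarith [L_lt_one]) hM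
    rw [abs_le]; constructor <;> linarith
  refine norm_le_of_e (by positivity) fun r hr => ?_
  have a1 := abs_le.1 (key r hr)
  have a2 := abs_le.1 (key L mL)
  have a3 := e_I_ends f
  rw [abs_le]; constructor <;> linarith [a1.1, a1.2, a2.1, a2.2]

lemma norm_Wq_le {M : ℝ} (hM : ‖gq (x t)‖ ≤ M) : ‖Wq (x t)‖ ≤ 6 * M := by
  have hM0 : 0 ≤ M := (norm_nonneg _).trans hM
  have key : ∀ f : A, (∀ s, |e f s| ≤ 1) → ‖I (f * gq (x t) * (x t).1)‖ ≤ 3 * M := fun f hf =>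
    norm_I_le hx h0 ht hM0 fun s _ => by
      rw [e_mul, e_mul, abs_mul, abs_mul, abs_of_pos (P_pos hx h0 ht s)]
      refine mul_le_mul_of_nonneg_right ?_ (P_pos hx h0 ht s).le
      have := mul_le_mul (hf s) ((e_le _ s).trans hM) (abs_nonneg _) zero_le_one
      linarith
  have c1 : ∀ s, |e (C2 (x t)) s| ≤ 1 := fun s => by rw [e_C2]; exact Real.abs_cos_le_one _
  have c2 : ∀ s, |e (S2 (x t)) s| ≤ 1 := fun s => by rw [e_S2]; exact Real.abs_sin_le_one _
  refine norm_le_of_e (by positivity) fun r _ => ?_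
  rw [Wq, e_add, e_mul, e_mul]
  refine (abs_add_le _ _).trans ?_
  rw [abs_mul, abs_mul]
  have a1 := mul_le_mul (c1 r) ((e_le _ r).trans (key _ c1)) (abs_nonneg _) zero_le_one
  have a2 := mul_le_mul (c2 r) ((e_le _ r).trans (key _ c2)) (abs_nonneg _) zero_le_one
  unfold Jq Hq
  linarith

end dyn

theorem bounded_of_vort {d : Data} {τ : ℝ} {x : ℝ → E} (hx : Sol F τ x) (h0 : x 0 = d.x0) {M : ℝ}
    (hM : ∀ t ∈ Ico 0 τ, ‖gq (x t)‖ ≤ M) : ∃ M', ∀ t ∈ Ico 0 τ, ‖x t‖ ≤ M' := by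
  by_cases hτ : τ ≤ 0
  · exact ⟨0, fun t ht => absurd (ht.1.trans_lt ht.2) (not_lt.2 hτ)⟩
  push Not at hτ
  have hM0 : 0 ≤ M := (norm_nonneg _).trans (hM 0 ⟨le_rfl, hτ⟩)
  set M2 := ‖Rq (x 0)‖ * Real.exp (6 * M * τ) with hM2
  have hM2' : 0 ≤ M2 := by positivity
  have hR : ∀ t ∈ Ico 0 τ, ‖Rq (x t)‖ ≤ M2 := fun t ht => by
    have := norm_le_gronwallBound_of_norm_deriv_right_le (f := fun s => Rq (x s))
      (f' := fun s => Wq (x s) * Rq (x s)) (δ := ‖Rq (x 0)‖) (K := 6 * M) (ε := 0) (a := 0) (b := t)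
      (cd_Rq.continuous.comp_continuousOn (hx.contOn ht.2))
      (fun s hs => (dRq hx h0 ⟨hs.1, hs.2.trans ht.2⟩).hasDerivWithinAt) le_rfl
      (fun s hs => by
        have hs' : s ∈ Ico 0 τ := ⟨hs.1, hs.2.trans ht.2⟩
        rw [add_zero]
        exact (norm_mul_le _ _).trans (mul_le_mul_of_nonneg_right
          (norm_Wq_le hx h0 hs' (hM s hs')) (norm_nonneg _))) t ⟨ht.1, le_rfl⟩
    rw [gronwallBound_ε0, sub_zero] at this
    refine this.trans ?_
    rw [hM2]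
    gcongr
    exact ht.2.le
  refine ⟨‖x 0‖ * Real.exp ((12 * M + 1 + M2) * τ), fun t ht => ?_⟩
  have := norm_le_gronwallBound_of_norm_deriv_right_le (f := x)
    (f' := fun s => F (x s)) (δ := ‖x 0‖) (K := 12 * M + 1 + M2) (ε := 0) (a := 0) (b := t)
    (hx.contOn ht.2) (fun s hs => (hx s ⟨hs.1, hs.2.trans ht.2⟩).hasDerivWithinAt) le_rfl
    (fun s hs => by
      have hs' : s ∈ Ico 0 τ := ⟨hs.1, hs.2.trans ht.2⟩
      have hW := norm_Wq_le hx h0 hs' (hM s hs')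
      have h1 : ‖(x s).1‖ ≤ ‖x s‖ := norm_fst_le _
      have h2 : ‖(x s).2.1‖ ≤ ‖x s‖ := (norm_fst_le (x s).2).trans (norm_snd_le _)
      have h3 : ‖(x s).2.2‖ ≤ ‖x s‖ := (norm_snd_le (x s).2).trans (norm_snd_le _)
      have hn := norm_nonneg (x s)
      have hc : ‖cc (x s)‖ ≤ 1 := norm_le_of_e zero_le_one fun r _ => Real.abs_cos_le_one _
      have a1 : ‖Wq (x s) * (x s).1‖ ≤ 6 * M * ‖x s‖ :=
        (norm_mul_le _ _).trans (mul_le_mul hW h1 (norm_nonneg _) (by positivity))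
      have a2 : ‖cc (x s) * (x s).2.2‖ ≤ 1 * ‖x s‖ :=
        (norm_mul_le _ _).trans (mul_le_mul hc h3 (norm_nonneg _) zero_le_one)
      have a3 : ‖Wq (x s) * (x s).2.2‖ ≤ 6 * M * ‖x s‖ :=
        (norm_mul_le _ _).trans (mul_le_mul hW h3 (norm_nonneg _) (by positivity))
      have a4 : ‖(x s).2.1 * Rq (x s)‖ ≤ ‖x s‖ * M2 :=
        (norm_mul_le _ _).trans (mul_le_mul h2 (hR s hs') (norm_nonneg _) hn)
      have b1 := mul_nonneg hM0 hn
      have b2 := mul_nonneg hM2' hn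
      rw [add_zero, F, Prod.norm_def, Prod.norm_def]
      refine max_le ((norm_add_le _ _).trans ?_) (max_le ?_ ((norm_sub_le _ _).trans ?_))
      · nlinarith
      · simp only; nlinarith
      · rw [norm_neg]; nlinarith) t ⟨ht.1, le_rfl⟩
  rw [gronwallBound_ε0, sub_zero] at this
  refine this.trans ?_
  gcongr
  exact ht.2.le

end

end Pool.Agent.H529Z.Bous
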