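import Mathlib
import Pool.Agent.H529Z.Bous.Sign

/-! The life span is bounded. -/

open Set Filter Topology
open scoped ContDiff

namespace Pool.Agent.H529Z.Bous

noncomputable section

def κ : ℝ := (Real.sin (4 / 5) - Real.sin (2 / 5)) / 2

lemma κ_pos : 0 < κ := by
  have := Real.strictMonoOn_sin (a := 2 / 5) (b := 4 / 5)
    ⟨by linarith [Real.pi_pos], by linarith [Real.pi_gt_three]⟩
    ⟨by linarith [Real.pi_pos], by linarith [Real.pi_gt_three]⟩ (by norm_num)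
  unfold κ; linarith

def Cc : ℝ := 2 + 2 / κ
lemma Cc_pos : 0 < Cc := by unfold Cc; have := κ_pos; positivity
def δ : ℝ := min (1 / 5) (1 / (2 * Cc))
lemma δ_pos : 0 < δ := by unfold δ; have := Cc_pos; positivity
lemma δ_le : δ ≤ 1 / 5 := min_le_left _ _
lemma δ_le' : Cc * δ ≤ 1 / 2 := by
  have h : δ ≤ 1 / (2 * Cc) := min_le_right _ _
  have := Cc_pos
  rw [le_div_iff₀ (by positivity)] at h
  linarith

lemma subc {r : ℝ} (hr : r ∈ Icc 0 (2 / 5)) : r ∈ Icc 0 L := ⟨hr.1, by linarith [hr.2, L_gt]⟩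

lemma cos_ge {r : ℝ} (hr : r ∈ Icc 0 (2 / 5)) : 1 / 2 ≤ Real.cos r := by
  have h1 := Real.one_sub_sq_div_two_le_cos (x := r)
  nlinarith [hr.1, hr.2]

/-- inverse radial stretching of the particle with label `r` -/
def pp (x : ℝ → E) (r t : ℝ) : ℝ := -e (Rq (x t)) r / Real.cos r

section dyn
variable {d : Data} {τ : ℝ} {x : ℝ → E} (hx : Sol F τ x) (h0 : x 0 = d.x0)
include h0

lemma pp_0 {r : ℝ} (hr : r ∈ Icc 0 (2 / 5)) : pp x r 0 = 1 := by
  have h1 := cos_ge hr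
  rw [pp, h0, d.Rq0 (sub0 (subc hr)), (d.near r (by rw [abs_of_nonneg hr.1]; exact hr.2)).1]
  field_simp

variable {t : ℝ} (ht : t ∈ Ico 0 τ)
include hx ht

lemma dpp (r : ℝ) : HasDerivAt (pp x r) (e (Wq (x t)) r * pp x r t) t := by
  refine HasDerivAt.congr_deriv ((hasDerivAt_e (dRq hx h0 ht) r).neg.div_const (Real.cos r)) ?_
  rw [e_mul, pp]; ring

variable {r : ℝ} (hr : r ∈ Icc 0 (2 / 5))
include hr

lemma pp_pos : 0 < pp x r t := by
  obtain ⟨c, hc0, hc⟩ := lin_exp (f := pp x r) (k := fun s => e (Wq (x s)) r) ht.1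
    (fun s hs => dpp hx h0 ⟨hs.1, hs.2.trans_lt ht.2⟩ r) (contq hx ht cd_Wq r)
  rw [hc, pp_0 h0 hr, one_mul]; exact hc0

lemma pp_sq : pp x r t ^ 2 = e (x t).1 r := by
  obtain ⟨c, -, hc⟩ := lin_exp (f := fun s => pp x r s ^ 2 - e (x s).1 r)
    (k := fun s => e (Wq (x s) + Wq (x s)) r) ht.1 (fun s hs => by
      have hs' : s ∈ Ico 0 τ := ⟨hs.1, hs.2.trans_lt ht.2⟩
      refine HasDerivAt.congr_deriv (((dpp hx h0 hs' r).pow 2).sub
        (hasDerivAt_e (dP hx hs') r)) ?_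
      simp only [e_add, e_mul]
      push_cast
      ring) (contq hx ht (cd_Wq.add cd_Wq) r)
  simp only [pp_0 h0 hr] at hc
  have h1 : e (x 0).1 r = 1 := by rw [h0]; rfl
  rw [h1] at hc
  linarith

lemma dΓ' : HasDerivAt (fun s => e (x s).2.1 r)
    (e (cc (x t)) r / pp x r t * (pp x r t * e (x t).2.2 r)) t := by
  refine HasDerivAt.congr_deriv (hasDerivAt_e (dΓ hx ht) r) ?_
  have := (pp_pos hx h0 ht hr).ne'
  rw [e_mul]; field_simp

lemma dD' : HasDerivAt (fun s => pp x r s * e (x s).2.2 r)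
    (Real.cos r * pp x r t ^ 2 * e (x t).2.1 r) t := by
  refine HasDerivAt.congr_deriv ((dpp hx h0 ht r).mul (hasDerivAt_e (dΔ hx ht) r)) ?_
  have h1 := cos_ge hr
  have h2 : e (Rq (x t)) r = -(Real.cos r * pp x r t) := by rw [pp]; field_simp
  rw [e_sub, e_neg, e_mul, e_mul, h2]; ring

lemma Γ_ge : 1 ≤ e (x t).2.1 r ∧ 0 ≤ pp x r t * e (x t).2.2 r := by
  have sub : ∀ s ∈ Icc 0 t, s ∈ Ico 0 τ := fun s hs => ⟨hs.1, hs.2.trans_lt ht.2⟩
  obtain ⟨n0, n1, n2⟩ := d.near r (by rw [abs_of_nonneg hr.1]; exact hr.2)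
  refine coop2 (x := fun s => e (x s).2.1 r) (y := fun s => pp x r s * e (x s).2.2 r)
    (α := fun s => e (cc (x s)) r / pp x r s) (β := fun s => Real.cos r * pp x r s ^ 2)
    (fun s hs => dΓ' hx h0 (sub s hs) hr) (fun s hs => dD' hx h0 (sub s hs) hr)
    (fun s hs => div_nonneg (by linarith [cc_ge hx h0 (sub s hs) (subc hr)])
      (pp_pos hx h0 (sub s hs) hr).le)
    (fun s hs => mul_nonneg (by linarith [cos_ge hr]) (sq_nonneg _)) ?_ ?_ t ⟨ht.1, le_rfl⟩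
  · simp only [h0, d.Γ0 (sub0 (subc hr)), Data.Γ, n0, n1]; ring
  · simp only [h0, d.Δ0 (sub0 (subc hr)), Data.Δ, n1, n2]; ring

lemma gq_anti {r' : ℝ} (hr' : r' ∈ Icc 0 (2 / 5)) (h : r ≤ r') :
    e (gq (x t)) r' ≤ e (gq (x t)) r :=
  (HD_gq _).anti (sub0 (subc hr)) (sub0 (subc hr')) h fun s hs => by
    rw [e_neg]
    linarith [(Γ_ge hx h0 ht ⟨hr.1.trans hs.1, hs.2.trans hr'.2⟩).1]

omit hr in
lemma Th_a : 2 / 5 ≤ e (Th (x t)) (2 / 5) := by
  have hc : (2 / 5 : ℝ) ∈ Icc 0 (2 / 5) := ⟨by norm_num, le_rfl⟩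
  have := Th_mono_t hx h0 ht (subc hc) ⟨le_rfl, ht.1⟩
  rwa [h0, d.Th0 (sub0 (subc hc))] at this

lemma pp_le : pp x r t ≤ pp x 0 t := by
  have sub : ∀ s ∈ Icc 0 t, s ∈ Ico 0 τ := fun s hs => ⟨hs.1, hs.2.trans_lt ht.2⟩
  have hz : (0:ℝ) ∈ Icc 0 (2 / 5) := ⟨le_rfl, by norm_num⟩
  have := mono_of_deriv (f := fun s => Real.log (pp x 0 s) - Real.log (pp x r s))
    (f' := fun s => e (Wq (x s)) 0 - e (Wq (x s)) r) ht.1 (fun s hs => by
      have p1 := (pp_pos hx h0 (sub s hs) hz).ne'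
      have p2 := (pp_pos hx h0 (sub s hs) hr).ne'
      refine HasDerivAt.congr_deriv (((dpp hx h0 (sub s hs) 0).log p1).sub
        ((dpp hx h0 (sub s hs) r).log p2)) ?_
      field_simp) (fun s hs => by
      rw [Wq_0 hx h0 (sub s hs)]
      linarith [Wq_le hx h0 (sub s hs) (subc hr),
        Jq_anti hx h0 (sub s hs) le_rfl hr.1 (subc hr).2])
  simp only [pp_0 h0 hr, pp_0 h0 hz, sub_self] at this
  exact (Real.log_le_log_iff (pp_pos hx h0 ht hr) (pp_pos hx h0 ht hz)).1 (by linarith)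

section small
variable (hδ : e (Th (x t)) r ≤ δ)
include hδ

lemma Jq_ge : κ * -e (gq (x t)) r ≤ e (Jq (x t)) r := by
  have hc : (2 / 5 : ℝ) ∈ Icc 0 (2 / 5) := ⟨by norm_num, le_rfl⟩
  have h1 := (HD_Jq (x t)).le (HD_S2 (x t)) (k := e (gq (x t)) r / 2) (sub0 (subc hr))
    (sub0 (subc hc)) hr.2 (fun s hs => by
      have hs' : s ∈ Icc 0 (2 / 5) := ⟨hr.1.trans hs.1, hs.2⟩
      simp only [e_mul, e_add]
      have a1 := gq_anti hx h0 ht hr hs' hs.1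
      have a2 := mul_nonneg (C2_nonneg hx h0 ht (subc hs')) (P_pos hx h0 ht s).le
      nlinarith)
  have h2 := Jq_nonneg hx h0 ht (subc hc)
  have h3 := (signs hx h0 ht (subc hr)).1
  have m1 := Th_mem hx h0 ht (subc hc)
  have m2 := Th_mem hx h0 ht (subc hr)
  have m3 := Th_a hx h0 ht
  have m4 := δ_le
  unfold L at m1 m2
  have h4 : Real.sin (4 / 5) ≤ e (S2 (x t)) (2 / 5) := by
    rw [e_S2]
    exact Real.sin_le_sin_of_le_of_le_pi_div_two (by linarith [Real.pi_pos]) (by linarith [m1.2])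
      (by linarith)
  have h5 : e (S2 (x t)) r ≤ Real.sin (2 / 5) := by
    rw [e_S2]
    exact Real.sin_le_sin_of_le_of_le_pi_div_two (by linarith [Real.pi_pos, m2.1])
      (by linarith [Real.pi_gt_three]) (by linarith)
  unfold κ
  nlinarith

lemma Wq_ge : e (Jq (x t)) 0 * (1 - Cc * e (Th (x t)) r) ≤ e (Wq (x t)) r := by
  have h1 := (HD_Jq (x t)).neg.le (HD_Th (x t)) (k := -e (gq (x t)) r) m0 (sub0 (subc hr)) hr.1
    (fun s hs => by
      have hs' : s ∈ Icc 0 (2 / 5) := ⟨hs.1, hs.2.trans hr.2⟩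
      simp only [e_mul, e_neg]
      have a1 := gq_anti hx h0 ht hs' hr hs.2
      have a2 := (P_pos hx h0 ht s).le
      have a3 := (signs hx h0 ht (subc hs')).1
      have a4 : e (C2 (x t)) s ≤ 1 := by rw [e_C2]; exact Real.cos_le_one _
      have a5 : -(e (C2 (x t)) s * e (gq (x t)) s) ≤ -e (gq (x t)) r := by nlinarith
      nlinarith)
  have h2 := (HD_Hq (x t)).neg.le (HD_Th (x t)) (k := -e (gq (x t)) r) m0 (sub0 (subc hr)) hr.1
    (fun s hs => by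
      have hs' : s ∈ Icc 0 (2 / 5) := ⟨hs.1, hs.2.trans hr.2⟩
      simp only [e_mul, e_neg]
      have a1 := gq_anti hx h0 ht hs' hr hs.2
      have a2 := (P_pos hx h0 ht s).le
      have a3 := (signs hx h0 ht (subc hs')).1
      have a4 : e (S2 (x t)) s ≤ 1 := by rw [e_S2]; exact Real.sin_le_one _
      have a5 : -(e (S2 (x t)) s * e (gq (x t)) s) ≤ -e (gq (x t)) r := by nlinarith
      nlinarith)
  simp only [e_neg, (symt hx h0 ht).Hq_0, (symt hx h0 ht).Th_0] at h1 h2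
  have h3 := Jq_ge hx h0 ht hr hδ
  have h4 := Jq_anti hx h0 ht le_rfl hr.1 (subc hr).2
  have h5 := Jq_nonneg hx h0 ht (subc hr)
  have h6 := Hq_nonpos hx h0 ht (subc hr)
  have m2 := Th_mem hx h0 ht (subc hr)
  have h7 : e (S2 (x t)) r ≤ 1 := by rw [e_S2]; exact Real.sin_le_one _
  have h8 : 1 - 2 * e (Th (x t)) r ≤ e (C2 (x t)) r := by
    rw [e_C2]
    have := Real.one_sub_sq_div_two_le_cos (x := 2 * e (Th (x t)) r)
    nlinarith [m2.1, m2.2, L_lt_one]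
  have h9 : -e (gq (x t)) r ≤ e (Jq (x t)) 0 / κ := by
    rw [le_div_iff₀ κ_pos]; linarith
  have h10 := mul_le_mul_of_nonneg_right h9 m2.1
  have h11 := mul_le_mul_of_nonneg_right h8 h5
  have h12 := mul_le_mul_of_nonneg_right h4 m2.1
  have h13 : e (Hq (x t)) r ≤ e (S2 (x t)) r * e (Hq (x t)) r := by nlinarith
  have h14 : e (Jq (x t)) 0 * (1 - Cc * e (Th (x t)) r) = e (Jq (x t)) 0
      - 2 * (e (Jq (x t)) 0 * e (Th (x t)) r) - 2 * (e (Jq (x t)) 0 / κ * e (Th (x t)) r) := by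
    unfold Cc; ring
  rw [h14, Wq, e_add, e_mul, e_mul]
  nlinarith

lemma key_ineq : 0 ≤ e (Wq (x t)) r - e (Wq (x t)) 0 + 2 * Cc * e (Vq (x t)) r := by
  have h1 := Wq_ge hx h0 ht hr hδ
  have h2 := Vq_ge hx h0 ht (subc hr)
  have h3 := Wq_le hx h0 ht (subc hr)
  have h4 := Jq_nonneg hx h0 ht (r := 0) ⟨le_rfl, L_pos.le⟩
  have h5 := Jq_nonneg hx h0 ht (subc hr)
  have m2 := Th_mem hx h0 ht (subc hr)
  have h6 : e (Th (x t)) r ≤ e (S2 (x t)) r := by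
    rw [e_S2]
    have a1 := Real.mul_le_sin (x := 2 * e (Th (x t)) r) (by linarith [m2.1])
      (by have := m2.2; unfold L at this; linarith)
    have a2 : 1 / 2 ≤ 2 / Real.pi := by
      rw [le_div_iff₀ Real.pi_pos]; linarith [Real.pi_lt_four]
    nlinarith [m2.1]
  have h7 : Cc * e (Th (x t)) r ≤ 1 / 2 :=
    (mul_le_mul_of_nonneg_left hδ Cc_pos.le).trans δ_le'
  have h8 : e (Jq (x t)) 0 / 2 ≤ e (Jq (x t)) r := by nlinarith
  have h9 : e (Th (x t)) r * (e (Jq (x t)) 0 / 2) ≤ e (Vq (x t)) r :=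
    (mul_le_mul h6 h8 (by positivity) (m2.1.trans h6)).trans h2
  rw [Wq_0 hx h0 ht]
  nlinarith [Cc_pos]

lemma pp_ge : pp x 0 t / 3 ≤ pp x r t := by
  have sub : ∀ s ∈ Icc 0 t, s ∈ Ico 0 τ := fun s hs => ⟨hs.1, hs.2.trans_lt ht.2⟩
  have hz : (0:ℝ) ∈ Icc 0 (2 / 5) := ⟨le_rfl, by norm_num⟩
  have := mono_of_deriv
    (f := fun s => Real.log (pp x r s) - Real.log (pp x 0 s) + 2 * Cc * e (Th (x s)) r)
    (f' := fun s => e (Wq (x s)) r - e (Wq (x s)) 0 + 2 * Cc * e (Vq (x s)) r) ht.1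
    (fun s hs => by
      have p1 := (pp_pos hx h0 (sub s hs) hz).ne'
      have p2 := (pp_pos hx h0 (sub s hs) hr).ne'
      refine HasDerivAt.congr_deriv ((((dpp hx h0 (sub s hs) r).log p2).sub
        ((dpp hx h0 (sub s hs) 0).log p1)).add
          ((hasDerivAt_e (dTh hx h0 (sub s hs)) r).const_mul (2 * Cc))) ?_
      field_simp)
    (fun s hs => key_ineq hx h0 (sub s hs) hr
      ((Th_mono_t hx h0 ht (subc hr) hs).trans hδ))
  simp only [pp_0 h0 hr, pp_0 h0 hz, sub_self] at this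
  have h1 : 0 ≤ 2 * Cc * e (Th (x 0)) r := by
    rw [h0, d.Th0 (sub0 (subc hr))]
    exact mul_nonneg (by linarith [Cc_pos]) hr.1
  have h7 : Cc * e (Th (x t)) r ≤ 1 / 2 :=
    (mul_le_mul_of_nonneg_left hδ Cc_pos.le).trans δ_le'
  have h2 : Real.log (pp x 0 t / 3) ≤ Real.log (pp x r t) := by
    rw [Real.log_div (pp_pos hx h0 ht hz).ne' (by norm_num)]
    have : 1 ≤ Real.log 3 := by
      rw [Real.le_log_iff_exp_le (by norm_num)]
      linarith [Real.exp_one_lt_d9]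
    linarith
  exact (Real.log_le_log_iff (by linarith [pp_pos hx h0 ht hz]) (pp_pos hx h0 ht hr)).1 h2

end small

omit hr

lemma u_mono {s : ℝ} (hs : s ∈ Icc 0 t) : pp x 0 s ≤ pp x 0 t := by
  have hz : (0:ℝ) ∈ Icc 0 (2 / 5) := ⟨le_rfl, by norm_num⟩
  refine mono_of_deriv hs.2
    (fun u hu => dpp hx h0 ⟨hs.1.trans hu.1, hu.2.trans_lt ht.2⟩ 0) (fun u hu => ?_)
  have hu' : u ∈ Ico 0 τ := ⟨hs.1.trans hu.1, hu.2.trans_lt ht.2⟩
  rw [Wq_0 hx h0 hu']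
  exact mul_nonneg (Jq_nonneg hx h0 hu' ⟨le_rfl, L_pos.le⟩) (pp_pos hx h0 hu' hz).le

lemma growth {a : ℝ} (ha : a ∈ Icc 0 t) (hu : pp x 0 t ≤ 128 * pp x 0 a) :
    κ * δ * ((pp x 0 a / 4608) ^ 3 / 720) * (t - a) ^ 6 ≤ e (Wq (x t)) 0 * pp x 0 t ^ 2 := by
  have hz : (0:ℝ) ∈ Icc 0 (2 / 5) := ⟨le_rfl, by norm_num⟩
  have hc : (2 / 5 : ℝ) ∈ Icc 0 (2 / 5) := ⟨by norm_num, le_rfl⟩
  have sub : ∀ s ∈ Icc a t, s ∈ Ico 0 τ := fun s hs => ⟨ha.1.trans hs.1, hs.2.trans_lt ht.2⟩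
  have ha' : a ∈ Ico 0 τ := sub a ⟨le_rfl, ha.2⟩
  have hU := pp_pos hx h0 ha' hz
  set U := pp x 0 a with hUdef
  obtain ⟨ρ, hρ, hρδ⟩ := intermediate_value_Icc (show (0:ℝ) ≤ 2 / 5 by norm_num)
    (e_cont (Th (x t))).continuousOn (show δ ∈ Icc (e (Th (x t)) 0) (e (Th (x t)) (2 / 5)) from
      ⟨by rw [(symt hx h0 ht).Th_0]; exact δ_pos.le, by linarith [δ_le, Th_a hx h0 ht]⟩)
  set m := (U / 4608) ^ 3 / 720 * (t - a) ^ 6 with hm
  have hm0 : 0 ≤ m := by have := sub_nonneg.2 ha.2; positivity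
  have hΓ : ∀ r ∈ Icc 0 ρ, m ≤ e (x t).2.1 r := by
    intro r hr
    have hr' : r ∈ Icc 0 (2 / 5) := ⟨hr.1, hr.2.trans hρ.2⟩
    have hrδ : e (Th (x t)) r ≤ δ := by
      rw [← hρδ]
      exact (Th_strictMono hx h0 ht).monotoneOn (sub0 (subc hr')) (sub0 (subc hρ)) hr.2
    have := grow6 (x := fun s => e (x s).2.1 r) (y := fun s => pp x r s * e (x s).2.2 r)
      (a := a) (b := t) (α := 1 / (256 * U)) (β := U ^ 2 / 18) (by positivity) (by positivity)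
      (fun s hs => dΓ' hx h0 (sub s hs) hr') (fun s hs => dD' hx h0 (sub s hs) hr')
      (fun s hs => by
        refine mul_le_mul_of_nonneg_right ?_ (Γ_ge hx h0 (sub s hs) hr').2
        have a1 := pp_pos hx h0 (sub s hs) hr'
        have a2 := pp_le hx h0 (sub s hs) hr'
        have a3 := u_mono hx h0 ht ⟨ha.1.trans hs.1, hs.2⟩
        have a4 := cc_ge hx h0 (sub s hs) (subc hr')
        rw [div_le_div_iff₀ (by positivity) a1]
        nlinarith)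
      (fun s hs => by
        refine mul_le_mul_of_nonneg_right ?_ (by linarith [(Γ_ge hx h0 (sub s hs) hr').1])
        have a2 := pp_ge hx h0 (sub s hs) hr'
          ((Th_mono_t hx h0 ht (subc hr') ⟨ha.1.trans hs.1, hs.2⟩).trans hrδ)
        have a3 := u_mono hx h0 (sub s hs) ⟨ha.1, hs.1⟩
        have a4 := cos_ge hr'
        have a5 : (U / 3) ^ 2 ≤ pp x r s ^ 2 := pow_le_pow_left₀ (by positivity) (by linarith) 2
        nlinarith [sq_nonneg (U / 3)])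
      (fun s hs => (Γ_ge hx h0 (sub s hs) hr').1) (Γ_ge hx h0 ha' hr').2 t ⟨ha.2, le_rfl⟩
    refine le_of_eq_of_le ?_ this
    rw [hm]
    congr 3
    field_simp
    norm_num
  have hid : HD idA 1 := fun r hr => (hasDerivAt_id r).congr_of_eventuallyEq (by
    filter_upwards [Ioo_mem_nhds hr.1 hr.2] with s hs using e_idA (Ioo_subset_Icc_self hs))
  have h1 := (HD_gq (x t)).le hid (k := -m) m0 (sub0 (subc hρ)) hρ.1 (fun s hs => by
    rw [e_neg, e_one]; linarith [hΓ s hs])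
  have h2 := (HD_Th (x t)).le hid (k := pp x 0 t ^ 2) m0 (sub0 (subc hρ)) hρ.1 (fun s hs => by
    have hs' : s ∈ Icc 0 (2 / 5) := ⟨hs.1, hs.2.trans hρ.2⟩
    rw [e_one, mul_one, ← pp_sq hx h0 ht hs']
    exact pow_le_pow_left₀ (pp_pos hx h0 ht hs').le (pp_le hx h0 ht hs') 2)
  rw [e_idA m0, e_idA (sub0 (subc hρ))] at h1 h2
  rw [(symt hx h0 ht).gq_0] at h1
  rw [(symt hx h0 ht).Th_0, hρδ] at h2
  have h3 := Jq_ge hx h0 ht hρ hρδ.le
  have h4 := Jq_anti hx h0 ht le_rfl hρ.1 (subc hρ).2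
  rw [Wq_0 hx h0 ht]
  have h5 : κ * (m * ρ) ≤ e (Jq (x t)) 0 := by nlinarith [κ_pos]
  have h6 := mul_le_mul_of_nonneg_right h5 (sq_nonneg (pp x 0 t))
  have h7 : κ * m * δ ≤ κ * m * (pp x 0 t ^ 2 * ρ) :=
    mul_le_mul_of_nonneg_left (by linarith) (mul_nonneg κ_pos.le hm0)
  calc _ = κ * m * δ := by rw [hm]; ring
    _ ≤ _ := by nlinarith

end dyn

/-- bound for the life span -/
def Tb : ℝ := 2 * max (128 ^ 2 / (2 * (κ * δ) / (4608 ^ 3 * 720 * 7))) 1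

theorem life {d : Data} {τ : ℝ} {x : ℝ → E} (h0 : x 0 = d.x0) (hx : Sol F τ x) : τ ≤ Tb := by
  have hz : (0:ℝ) ∈ Icc 0 (2 / 5) := ⟨le_rfl, by norm_num⟩
  set c0 := 2 * (κ * δ) / (4608 ^ 3 * 720 * 7) with hc0
  have hc0' : 0 < c0 := by have := κ_pos; have := δ_pos; positivity
  set C := max (128 ^ 2 / c0) 1 with hC
  have hC1 : 1 ≤ C := le_max_right _ _
  refine le_of_forall_lt_imp_le_of_dense fun t htτ => ?_
  show t ≤ 2 * C
  rcases lt_or_ge t 0 with h | h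
  · linarith
  have ht : t ∈ Ico 0 τ := ⟨h, htτ⟩
  refine doubling (u := pp x 0) h (by linarith)
    (fun s hs => (dpp hx h0 ⟨hs.1, hs.2.trans_lt htτ⟩ 0).continuousAt.continuousWithinAt)
    (pp_0 h0 hz) fun a b ha hab hb hu => ?_
  have sub : ∀ s ∈ Icc a b, s ∈ Ico 0 τ := fun s hs =>
    ⟨ha.trans hs.1, (hs.2.trans hb).trans_lt htτ⟩
  have hb' := sub b ⟨hab, le_rfl⟩
  have hU := pp_pos hx h0 (sub a ⟨le_rfl, hab⟩) hz
  have h1 := grow (f := fun s => pp x 0 s ^ 2)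
    (f' := fun s => 2 * (e (Wq (x s)) 0 * pp x 0 s ^ 2)) (a := a) (b := b)
    (K := 2 * (κ * δ * ((pp x 0 a / 4608) ^ 3 / 720))) (n := 6)
    (fun s hs => HasDerivAt.congr_deriv ((dpp hx h0 (sub s hs) 0).pow 2) (by push_cast; ring))
    (sq_nonneg _) (fun s hs => by
      have := growth hx h0 (sub s hs) ⟨ha, hs.1⟩
        ((u_mono hx h0 hb' ⟨ha.trans hs.1, hs.2⟩).trans hu)
      linarith) b ⟨hab, le_rfl⟩
  have h2 : pp x 0 b ^ 2 ≤ (128 * pp x 0 a) ^ 2 :=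
    pow_le_pow_left₀ (pp_pos hx h0 hb' hz).le hu 2
  have h3 : (c0 * ((b - a) ^ 7 * pp x 0 a)) * pp x 0 a ^ 2 ≤ 128 ^ 2 * pp x 0 a ^ 2 := by
    refine le_of_eq_of_le ?_ (h1.trans (h2.trans_eq (by ring)))
    rw [hc0]; push_cast; ring
  have h4 := le_of_mul_le_mul_right h3 (by positivity)
  have h5 : (b - a) ^ 7 * pp x 0 a ≤ 128 ^ 2 / c0 := by
    rw [le_div_iff₀ hc0']; linarith
  exact (h5.trans (le_max_left _ _)).trans (le_self_pow₀ hC1 (by norm_num))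

end

end Pool.Agent.H529Z.Bous
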