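import Mathlib
import Pool.Agent.H529Z.Bous.Blow

/-! Back to Eulerian coordinates. -/

open Set Filter Topology
open scoped ContDiff

namespace Pool.Agent.H529Z.Bous

noncomputable section

lemma m34 : (3 / 4 : ℝ) ∈ Ioo (-L) L := ⟨by linarith [L_pos], L_gt⟩

/-- label of the particle at angle `θ` -/
def α (x : ℝ → E) (t θ : ℝ) : ℝ := Function.invFunOn (e (Th (x t))) (Icc (-L) L) θ

/-- Eulerian version of a Lagrangian quantity -/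
def Eu (x : ℝ → E) (q : E → A) (θ t : ℝ) : ℝ := e (q (x t)) (α x t θ)

section dyn
variable {d : Data} {τ : ℝ} {x : ℝ → E} (hx : Sol F τ x) (h0 : x 0 = d.x0)
include hx h0

section
variable {t : ℝ} (ht : t ∈ Ico 0 τ)
include ht

lemma α_spec {θ : ℝ} (hθ : θ ∈ Icc (-L) L) :
    α x t θ ∈ Icc (-L) L ∧ e (Th (x t)) (α x t θ) = θ := by
  obtain ⟨a, ha, h⟩ := intermediate_value_Icc LL (e_cont (Th (x t))).continuousOn
    (show θ ∈ Icc (e (Th (x t)) (-L)) (e (Th (x t)) L) by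
      rw [Th_L hx h0 ht, Th_L' hx h0 ht]; exact hθ)
  exact Function.invFunOn_pos ⟨a, ha, h⟩

lemma α_Th {a : ℝ} (ha : a ∈ Icc (-L) L) : α x t (e (Th (x t)) a) = a :=
  (Th_strictMono hx h0 ht).injOn.leftInvOn_invFunOn ha

lemma Th_Ioo {a : ℝ} (ha : a ∈ Ioo (-L) L) : e (Th (x t)) a ∈ Ioo (-L) L := by
  have h := Th_strictMono hx h0 ht
  exact ⟨by rw [← Th_L' hx h0 ht]; exact h mL' (Ioo_subset_Icc_self ha) ha.1,
    by conv_rhs => rw [← Th_L hx h0 ht]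
       exact h (Ioo_subset_Icc_self ha) mL ha.2⟩

lemma α_L : α x t L = L := by
  conv_lhs => rw [← Th_L hx h0 ht]
  exact α_Th hx h0 ht mL

lemma α_neg {θ : ℝ} (hθ : θ ∈ Icc (-L) L) : α x t (-θ) = -α x t θ := by
  obtain ⟨h1, h2⟩ := α_spec hx h0 ht hθ
  have h3 := α_Th hx h0 ht (refl.maps _ h1)
  have h4 : e (Th (x t)) (refl.φ (α x t θ)) = -θ := by
    rw [← h2]; conv_lhs => rw [h2]
    exact (symt hx h0 ht).Th h1
  rw [h4] at h3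
  exact h3

lemma α_Ioo {θ : ℝ} (hθ : θ ∈ Ioo (-L) L) : α x t θ ∈ Ioo (-L) L := by
  obtain ⟨h1, h2⟩ := α_spec hx h0 ht (Ioo_subset_Icc_self hθ)
  refine ⟨h1.1.lt_of_ne fun h => ?_, h1.2.lt_of_ne fun h => ?_⟩
  · rw [← h, Th_L' hx h0 ht] at h2; exact hθ.1.ne h2
  · rw [h, Th_L hx h0 ht] at h2; exact hθ.2.ne' h2

lemma Eu_gq_neg {θ : ℝ} (hθ : θ ∈ Icc (-L) L) : Eu x gq (-θ) t = -Eu x gq θ t := by
  rw [Eu, α_neg hx h0 ht hθ]; exact (symt hx h0 ht).gq (α_spec hx h0 ht hθ).1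
lemma Eu_Rq_neg {θ : ℝ} (hθ : θ ∈ Icc (-L) L) : Eu x Rq (-θ) t = Eu x Rq θ t := by
  rw [Eu, α_neg hx h0 ht hθ]; exact (symt hx h0 ht).Rq (α_spec hx h0 ht hθ).1
lemma Eu_Vq_neg {θ : ℝ} (hθ : θ ∈ Icc (-L) L) : Eu x Vq (-θ) t = -Eu x Vq θ t := by
  rw [Eu, α_neg hx h0 ht hθ]; exact (symt hx h0 ht).Vq (α_spec hx h0 ht hθ).1

lemma far_E {θ : ℝ} (hθ : θ ∈ Icc (-L) L) (h : e (Th (x t)) (3 / 4) < θ) :
    Eu x gq θ t = 0 ∧ Eu x Rq θ t = 0 ∧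
      Eu x Vq θ t = -(Real.cos (2 * θ) * e (Hq (x t)) L) := by
  obtain ⟨h1, h2⟩ := α_spec hx h0 ht hθ
  have h3 : 3 / 4 ≤ α x t θ := by
    by_contra hcon
    push Not at hcon
    have := Th_strictMono hx h0 ht h1 (Ioo_subset_Icc_self m34) hcon
    linarith
  have h4 := far_zero' hx h0 ht ⟨h3, h1.2⟩
  refine ⟨h4.1, h4.2, ?_⟩
  have key : ∀ f : A, e (I (f * gq (x t) * (x t).1)) (α x t θ) =
      e (I (f * gq (x t) * (x t).1)) L := fun f => by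
    have := (HD_I (f * gq (x t) * (x t).1)).integral h1 mL h1.2
    rw [intervalIntegral.integral_congr (g := fun _ => 0) (fun s hs => by
      rw [uIcc_of_le h1.2] at hs
      simp only [e_mul, (far_zero' hx h0 ht ⟨h3.trans hs.1, hs.2⟩).1]; ring)] at this
    simp only [intervalIntegral.integral_zero] at this
    linarith
  have hJ : e (Jq (x t)) (α x t θ) = 0 := (key _).trans (symt hx h0 ht).Jq_L
  have hH : e (Hq (x t)) (α x t θ) = e (Hq (x t)) L := key _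
  rw [Eu, Vq, e_sub, e_mul, e_mul, hJ, hH, e_C2, h2]; ring

lemma far_E' {θ : ℝ} (hθ : θ ∈ Icc (-L) L) (h : θ < -e (Th (x t)) (3 / 4)) :
    Eu x gq θ t = 0 ∧ Eu x Rq θ t = 0 ∧
      Eu x Vq θ t = Real.cos (2 * θ) * e (Hq (x t)) L := by
  obtain ⟨h1, h2, h3⟩ := far_E hx h0 ht (refl.maps _ hθ) (show _ < -θ by linarith)
  change Eu x gq (-θ) t = 0 at h1
  change Eu x Rq (-θ) t = 0 at h2
  change Eu x Vq (-θ) t = -(Real.cos (2 * -θ) * _) at h3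
  rw [Eu_gq_neg hx h0 ht hθ] at h1
  rw [Eu_Rq_neg hx h0 ht hθ] at h2
  rw [Eu_Vq_neg hx h0 ht hθ, mul_neg, Real.cos_neg] at h3
  exact ⟨by linarith, h2, by linarith⟩

end

section
variable {t : ℝ} (ht : t ∈ Ioo 0 τ) {θ : ℝ} (hθ : θ ∈ Ioo (-L) L)
include ht hθ

lemma sm_α : ContDiffAt ℝ ∞ (fun p : ℝ × ℝ => α x p.2 p.1) (θ, t) := by
  have ht' := Ioo_subset_Ico_self ht
  have ha := α_Ioo hx h0 ht' hθ
  have ha2 := (α_spec hx h0 ht' (Ioo_subset_Icc_self hθ)).2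
  set a := α x t θ with hadef
  have h1 := smooth_q d.cΓ d.cΔ hx h0 cd_Th Rel.Th_R ht ha
  set f : (ℝ × ℝ) × ℝ → ℝ := fun u => e (Th (x u.1.2)) u.2 - u.1.1 with hf
  have cdf : ContDiffAt ℝ ∞ f ((θ, t), a) :=
    (ContDiffAt.comp (g := fun p : ℝ × ℝ => e (Th (x p.1)) p.2)
      (f := fun u : (ℝ × ℝ) × ℝ => (u.1.2, u.2)) ((θ, t), a) h1 (by fun_prop)).sub (by fun_prop)
  have hinv : (fderiv ℝ f ((θ, t), a) ∘L .inr ℝ (ℝ × ℝ) ℝ).IsInvertible := by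
    have h2 : HasFDerivAt (fun b => f ((θ, t), b))
        (fderiv ℝ f ((θ, t), a) ∘L .inr ℝ (ℝ × ℝ) ℝ) a :=
      HasFDerivAt.comp (g := f) a (cdf.differentiableAt (by simp)).hasFDerivAt
        (hasFDerivAt_prodMk_right _ a)
    have h3 : HasDerivAt (fun b => f ((θ, t), b)) (e (x t).1 a) a := (HD_Th (x t) a ha).sub_const θ
    rw [h2.unique (h3.hasFDerivAt_equiv (P_pos hx h0 ht' a).ne')]
    exact ⟨_, rfl⟩
  have h4 := cdf.contDiffAt_implicitFunction (by simp) hinv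
  have h5 := cdf.eventually_apply_implicitFunction (by simp) hinv
  have h6 := cdf.implicitFunction_apply_self (by simp) hinv
  refine h4.congr_of_eventuallyEq ?_
  have h7 : ∀ᶠ p in 𝓝 (θ, t), cdf.implicitFunction (by simp) hinv p ∈ Ioo (-L) L :=
    h4.continuousAt.eventually (by rw [h6]; exact Ioo_mem_nhds ha.1 ha.2)
  have h8 : ∀ᶠ p : ℝ × ℝ in 𝓝 (θ, t), p.2 ∈ Ioo 0 τ :=
    continuous_snd.continuousAt.eventually (Ioo_mem_nhds ht.1 ht.2)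
  filter_upwards [h5, h7, h8] with p hp5 hp7 hp8
  have h9 : e (Th (x p.2)) (cdf.implicitFunction (by simp) hinv p) = p.1 := by
    simp only [hf] at hp5
    linarith
  have h10 := α_Th hx h0 (Ioo_subset_Ico_self hp8) (Ioo_subset_Icc_self hp7)
  rw [h9] at h10
  exact h10

lemma sm_Eu {q : E → A} (hq : ContDiff ℝ ∞ q) (hqR : ∀ (ρ : Rel) z, q (ρ.R z) = ρ.C (q z)) :
    ContDiffAt ℝ ∞ (fun p : ℝ × ℝ => Eu x q p.1 p.2) (θ, t) :=
  ContDiffAt.comp (g := fun p : ℝ × ℝ => e (q (x p.1)) p.2)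
    (f := fun p : ℝ × ℝ => (p.2, α x p.2 p.1)) (θ, t)
    (smooth_q d.cΓ d.cΔ hx h0 hq hqR ht (α_Ioo hx h0 (Ioo_subset_Ico_self ht) hθ))
    (contDiffAt_snd.prodMk (sm_α hx h0 ht hθ))

lemma dα : HasDerivAt (α x t) (e (x t).1 (α x t θ))⁻¹ θ := by
  have ht' := Ioo_subset_Ico_self ht
  refine HasDerivAt.of_local_left_inverse (f := e (Th (x t))) ?_
    (HD_Th _ _ (α_Ioo hx h0 ht' hθ)) (P_pos hx h0 ht' _).ne' ?_
  · exact ContinuousAt.comp (g := fun p : ℝ × ℝ => α x p.2 p.1) (f := fun φ : ℝ => (φ, t))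
      (sm_α hx h0 ht hθ).continuousAt (by fun_prop)
  · filter_upwards [Ioo_mem_nhds hθ.1 hθ.2] with φ hφ
    exact (α_spec hx h0 ht' (Ioo_subset_Icc_self hφ)).2

lemma dEu_θ {q q' : E → A} (h : HD (q (x t)) (q' (x t) * (x t).1)) :
    HasDerivAt (fun φ => Eu x q φ t) (Eu x q' θ t) θ := by
  have ht' := Ioo_subset_Ico_self ht
  refine HasDerivAt.congr_deriv ((h _ (α_Ioo hx h0 ht' hθ)).comp θ (dα hx h0 ht hθ)) ?_
  have := (P_pos hx h0 ht' (α x t θ)).ne'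
  rw [e_mul, Eu]; field_simp

lemma dEu_t {q : E → A} (hq : ContDiff ℝ ∞ q) (hqR : ∀ (ρ : Rel) z, q (ρ.R z) = ρ.C (q z))
    {q' : A} (h : HasDerivAt (fun s => q (x s)) q' t) :
    deriv (fun s => Eu x q θ s) t + Eu x Vq θ t * deriv (fun φ => Eu x q φ t) θ
      = e q' (α x t θ) := by
  have ht' := Ioo_subset_Ico_self ht
  obtain ⟨ha, ha2⟩ := α_spec hx h0 ht' (Ioo_subset_Icc_self hθ)
  set f : ℝ × ℝ → ℝ := fun p => Eu x q p.1 p.2 with hf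
  have hD : HasFDerivAt f (fderiv ℝ f (θ, t)) (θ, t) :=
    ((sm_Eu hx h0 ht hθ hq hqR).differentiableAt (by simp)).hasFDerivAt
  set D := fderiv ℝ f (θ, t) with hDdef
  have h1 : HasDerivAt (fun s => Eu x q θ s) (D (0, 1)) t :=
    HasFDerivAt.comp_hasDerivAt (f := fun s : ℝ => (θ, s)) t hD
      ((hasDerivAt_const t θ).prodMk (hasDerivAt_id t))
  have h2 : HasDerivAt (fun φ => Eu x q φ t) (D (1, 0)) θ :=
    HasFDerivAt.comp_hasDerivAt (f := fun φ : ℝ => (φ, t)) θ hD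
      ((hasDerivAt_id θ).prodMk (hasDerivAt_const θ t))
  have h3 : HasDerivAt (fun s => f (e (Th (x s)) (α x t θ), s)) (D (Eu x Vq θ t, 1)) t := by
    have hD' : HasFDerivAt f D (e (Th (x t)) (α x t θ), t) := by rw [ha2]; exact hD
    exact HasFDerivAt.comp_hasDerivAt (f := fun s : ℝ => (e (Th (x s)) (α x t θ), s)) t hD'
      ((hasDerivAt_e (dTh hx h0 ht') _).prodMk (hasDerivAt_id t))
  have h4 : HasDerivAt (fun s => f (e (Th (x s)) (α x t θ), s)) (e q' (α x t θ)) t := by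
    refine (hasDerivAt_e h _).congr_of_eventuallyEq ?_
    filter_upwards [Ioo_mem_nhds ht.1 ht.2] with s hs
    simp only [hf, Eu]
    rw [α_Th hx h0 (Ioo_subset_Ico_self hs) ha]
  rw [h1.deriv, h2.deriv, ← h3.unique h4]
  have : ((Eu x Vq θ t, 1) : ℝ × ℝ) = (0, 1) + Eu x Vq θ t • ((1, 0) : ℝ × ℝ) := by simp
  rw [this, map_add, map_smul, smul_eq_mul]

lemma dΨ : HasDerivAt (fun φ => Eu x Vq φ t / 2) (Eu x Wq θ t) θ := by
  have h := dEu_θ hx h0 ht hθ (q := Vq) (q' := fun z => Wq z + Wq z)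
    ((HD_Vq _).congr (by ring))
  refine HasDerivAt.congr_deriv (h.div_const 2) ?_
  simp only [Eu, e_add]; ring

lemma elliptic : deriv (deriv (fun φ => Eu x Vq φ t / 2)) θ + 4 * (Eu x Vq θ t / 2)
    = Eu x gq θ t := by
  have h1 : deriv (fun φ => Eu x Vq φ t / 2) =ᶠ[𝓝 θ] fun φ => Eu x Wq φ t := by
    filter_upwards [Ioo_mem_nhds hθ.1 hθ.2] with φ hφ using (dΨ hx h0 ht hφ).deriv
  rw [h1.deriv_eq,
    (dEu_θ hx h0 ht hθ (q := Wq) (q' := fun z => gq z - (Vq z + Vq z)) (HD_Wq _)).deriv]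
  simp only [Eu, e_add, e_sub]; ring

lemma pde1 : deriv (fun s => Eu x gq θ s) t + 2 * (Eu x Vq θ t / 2) * deriv (fun φ => Eu x gq φ t) θ
    + (Eu x Rq θ t * Real.sin θ + deriv (fun φ => Eu x Rq φ t) θ * Real.cos θ) = 0 := by
  have ht' := Ioo_subset_Ico_self ht
  have h1 := dEu_t hx h0 ht hθ cd_gq Rel.gq_R (dgq hx ht')
  have h2 := (α_spec hx h0 ht' (Ioo_subset_Icc_self hθ)).2
  rw [(dEu_θ hx h0 ht hθ (q := Rq) (q' := Sq) (HD_Rq _)).deriv]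
  have h3 : Eu x Rq θ t * Real.sin θ + Eu x Sq θ t * Real.cos θ = e (Aq (x t)) (α x t θ) := by
    simp only [Eu, Rq, Sq, cc, ss, e_add, e_sub, e_mul, e_cosA, e_sinA, h2]
    linear_combination (e (Aq (x t)) (α x t θ)) * Real.sin_sq_add_cos_sq θ
  rw [e_neg] at h1
  linarith

lemma pde2 : deriv (fun s => Eu x Rq θ s) t + 2 * (Eu x Vq θ t / 2) * deriv (fun φ => Eu x Rq φ t) θ
    - deriv (fun φ => Eu x Vq φ t / 2) θ * Eu x Rq θ t = 0 := by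
  have ht' := Ioo_subset_Ico_self ht
  have h1 := dEu_t hx h0 ht hθ cd_Rq Rel.Rq_R (dRq hx h0 ht')
  rw [(dΨ hx h0 ht hθ).deriv]
  rw [e_mul] at h1
  simp only [Eu] at h1 ⊢
  linarith

end

section
variable {t : ℝ} (ht : t ∈ Ioo 0 τ)
include ht

lemma ev_far : ∀ᶠ p : ℝ × ℝ in 𝓝 (L, t), p.2 ∈ Ioo 0 τ ∧ e (Th (x p.2)) (3 / 4) < p.1 := by
  have ht' := Ioo_subset_Ico_self ht
  have h1 : ContinuousAt (fun p : ℝ × ℝ => e (Th (x p.2)) (3 / 4)) (L, t) :=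
    ContinuousAt.comp (g := fun s => e (Th (x s)) (3 / 4)) (f := Prod.snd)
      (hasDerivAt_e (dTh hx h0 ht') _).continuousAt continuousAt_snd
  exact (continuous_snd.continuousAt.eventually (Ioo_mem_nhds ht.1 ht.2)).and
    (h1.eventually_lt continuousAt_fst (Th_Ioo hx h0 ht' m34).2)

lemma ev_far' : ∀ᶠ p : ℝ × ℝ in 𝓝 (-L, t), p.2 ∈ Ioo 0 τ ∧ p.1 < -e (Th (x p.2)) (3 / 4) := by
  have ht' := Ioo_subset_Ico_self ht
  have h1 : ContinuousAt (fun p : ℝ × ℝ => e (Th (x p.2)) (3 / 4)) (-L, t) :=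
    ContinuousAt.comp (g := fun s => e (Th (x s)) (3 / 4)) (f := Prod.snd)
      (hasDerivAt_e (dTh hx h0 ht') _).continuousAt continuousAt_snd
  exact (continuous_snd.continuousAt.eventually (Ioo_mem_nhds ht.1 ht.2)).and
    (continuousAt_fst.eventually_lt h1.neg
      (neg_lt_neg (Th_Ioo hx h0 ht' m34).2))

lemma ev1 : ∀ᶠ φ in 𝓝[Icc (-L) L] L, Eu x gq φ t = 0 ∧ Eu x Rq φ t = 0 ∧
    Eu x Vq φ t = -(Real.cos (2 * φ) * e (Hq (x t)) L) := by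
  have ht' := Ioo_subset_Ico_self ht
  filter_upwards [self_mem_nhdsWithin,
    mem_nhdsWithin_of_mem_nhds (lt_mem_nhds (Th_Ioo hx h0 ht' m34).2)] with φ h1 h2
  exact far_E hx h0 ht' h1 h2

lemma ev2 : ∀ᶠ φ in 𝓝[Icc (-L) L] (-L), Eu x gq φ t = 0 ∧ Eu x Rq φ t = 0 ∧
    Eu x Vq φ t = Real.cos (2 * φ) * e (Hq (x t)) L := by
  have ht' := Ioo_subset_Ico_self ht
  filter_upwards [self_mem_nhdsWithin, mem_nhdsWithin_of_mem_nhds
    (gt_mem_nhds (neg_lt_neg (Th_Ioo hx h0 ht' m34).2))] with φ h1 h2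
  exact far_E' hx h0 ht' h1 h2

lemma Ψ_cd : ContDiffOn ℝ 2 (fun φ => Eu x Vq φ t / 2) (Icc (-L) L) := by
  intro θ hθ
  rcases hθ.1.eq_or_lt with h1 | h1
  · rw [← h1]
    refine ContDiffWithinAt.congr_of_eventuallyEq_of_mem
      (f := fun φ => Real.cos (2 * φ) * e (Hq (x t)) L / 2)
      (ContDiff.contDiffWithinAt (by fun_prop)) ?_ mL'
    filter_upwards [ev2 hx h0 ht] with φ h
    rw [h.2.2]
  rcases hθ.2.eq_or_lt with h2 | h2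
  · rw [h2]
    refine ContDiffWithinAt.congr_of_eventuallyEq_of_mem
      (f := fun φ => -(Real.cos (2 * φ) * e (Hq (x t)) L) / 2)
      (ContDiff.contDiffWithinAt (by fun_prop)) ?_ mL
    filter_upwards [ev1 hx h0 ht] with φ h
    rw [h.2.2]
  have h3 : ContDiffAt ℝ ∞ (fun φ => Eu x Vq φ t) θ :=
    ContDiffAt.comp (g := fun p : ℝ × ℝ => Eu x Vq p.1 p.2) (f := fun φ : ℝ => (φ, t)) θ
      (sm_Eu hx h0 ht ⟨h1, h2⟩ cd_Vq Rel.Vq_R) (by fun_prop)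
  exact ((contDiffAt_infty.1 h3 2).div_const 2).contDiffWithinAt

lemma normal : ∫ θ in (-L)..L, Eu x Vq θ t / 2 * Real.cos (2 * θ) = 0 := by
  have ht' := Ioo_subset_Ico_self ht
  have h1 := intervalIntegral.integral_comp_neg (a := -L) (b := L)
    (fun θ => Eu x Vq θ t / 2 * Real.cos (2 * θ))
  rw [neg_neg, intervalIntegral.integral_congr
    (g := fun θ => -(Eu x Vq θ t / 2 * Real.cos (2 * θ))) (fun θ hθ => by
      rw [uIcc_of_le LL] at hθ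
      simp only [Eu_Vq_neg hx h0 ht' hθ, mul_neg, Real.cos_neg]; ring),
    intervalIntegral.integral_neg] at h1
  linarith

end

lemma joint {q : E → A} (hq : ContDiff ℝ ∞ q) (hqR : ∀ (ρ : Rel) z, q (ρ.R z) = ρ.C (q z))
    (h1 : ∀ t ∈ Ico 0 τ, ∀ θ ∈ Icc (-L) L, e (Th (x t)) (3 / 4) < θ → Eu x q θ t = 0)
    (h2 : ∀ t ∈ Ico 0 τ, ∀ θ ∈ Icc (-L) L, θ < -e (Th (x t)) (3 / 4) → Eu x q θ t = 0) :
    ContDiffOn ℝ ∞ (fun p : ℝ × ℝ => Eu x q p.1 p.2) (Icc (-L) L ×ˢ Ioo 0 τ) := by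
  rintro ⟨θ, t⟩ ⟨hθ, ht⟩
  rcases hθ.1.eq_or_lt with h3 | h3
  · obtain rfl : -L = θ := h3
    refine ContDiffWithinAt.congr_of_eventuallyEq_of_mem (f := fun _ => 0) contDiffWithinAt_const
      ?_ ⟨hθ, ht⟩
    filter_upwards [self_mem_nhdsWithin, mem_nhdsWithin_of_mem_nhds (ev_far' hx h0 ht)]
      with p hp1 hp2
    exact h2 _ (Ioo_subset_Ico_self hp2.1) _ hp1.1 hp2.2
  rcases hθ.2.eq_or_lt with h4 | h4
  · obtain rfl : θ = L := h4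
    refine ContDiffWithinAt.congr_of_eventuallyEq_of_mem (f := fun _ => 0) contDiffWithinAt_const
      ?_ ⟨hθ, ht⟩
    filter_upwards [self_mem_nhdsWithin, mem_nhdsWithin_of_mem_nhds (ev_far hx h0 ht)]
      with p hp1 hp2
    exact h1 _ (Ioo_subset_Ico_self hp2.1) _ hp1.1 hp2.2
  exact (sm_Eu hx h0 ht ⟨h3, h4⟩ hq hqR).contDiffWithinAt

lemma blow (hun : ∀ M, ∃ t ∈ Ico 0 τ, M < ‖x t‖) (M : ℝ) :
    ∃ t1 ∈ Ico 0 τ, ∀ t ∈ Ico t1 τ, ∃ θ ∈ Ioo (-L) L, M < |Eu x gq θ t| := by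
  have h1 : ∃ t ∈ Ico 0 τ, |M| < ‖gq (x t)‖ := by
    by_contra hcon
    push Not at hcon
    obtain ⟨M', hM'⟩ := bounded_of_vort hx h0 hcon
    obtain ⟨t, ht, h⟩ := hun M'
    linarith [hM' t ht]
  obtain ⟨t1, ht1, h1⟩ := h1
  have h2 : ∃ a ∈ Icc 0 L, e (gq (x t1)) a < -|M| := by
    by_contra hcon
    push Not at hcon
    refine absurd h1 (not_lt.2 (norm_le_of_e (abs_nonneg _) fun r hr => ?_))
    rcases le_total 0 r with h | h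
    · rw [abs_of_nonpos (signs hx h0 ht1 ⟨h, hr.2⟩).1]
      linarith [hcon r ⟨h, hr.2⟩]
    · have h3 : -r ∈ Icc 0 L := ⟨by linarith, by linarith [hr.1]⟩
      rw [← abs_neg, ← (symt hx h0 ht1).gq hr, abs_of_nonpos (signs hx h0 ht1 h3).1]
      linarith [hcon _ h3]
  obtain ⟨a, ha, h2⟩ := h2
  have ha' : a ∈ Ioo (-L) L := ⟨by linarith [ha.1, L_pos], ha.2.lt_of_ne fun h => by
    rw [h, gq_L hx h0 ht1] at h2; linarith [abs_nonneg M]⟩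
  refine ⟨t1, ht1, fun t ht => ?_⟩
  have ht' : t ∈ Ico 0 τ := ⟨ht1.1.trans ht.1, ht.2⟩
  refine ⟨_, Th_Ioo hx h0 ht' ha', ?_⟩
  rw [Eu, α_Th hx h0 ht' (sub0 ha)]
  have := gq_anti_t hx h0 ht' ha ⟨ht1.1, ht.1⟩
  linarith [neg_le_abs (e (gq (x t)) a), le_abs_self M]

end dyn

theorem main :
    ∃ (T : ℝ) (om R Ψ : ℝ → ℝ → ℝ), 0 < T ∧
      ContDiffOn ℝ ∞ (fun p : ℝ × ℝ => om p.1 p.2) (Icc (-L) L ×ˢ Ico 0 T) ∧
      ContDiffOn ℝ ∞ (fun p : ℝ × ℝ => R p.1 p.2) (Icc (-L) L ×ˢ Ico 0 T) ∧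
      (∀ t ∈ Ico 0 T,
        ContDiffOn ℝ 2 (fun θ => Ψ θ t) (Icc (-L) L) ∧
        Ψ (-L) t = 0 ∧ Ψ L t = 0 ∧
        (∫ θ in (-L)..L, Ψ θ t * Real.cos (2 * θ)) = 0 ∧
        (∀ θ ∈ Ioo (-L) L, deriv (deriv (fun φ => Ψ φ t)) θ + 4 * Ψ θ t = om θ t)) ∧
      (∀ t ∈ Ioo 0 T, ∀ θ ∈ Ioo (-L) L,
        deriv (fun s => om θ s) t + 2 * Ψ θ t * deriv (fun φ => om φ t) θ
            + (R θ t * Real.sin θ + deriv (fun φ => R φ t) θ * Real.cos θ) = 0 ∧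
        deriv (fun s => R θ s) t + 2 * Ψ θ t * deriv (fun φ => R φ t) θ
            - deriv (fun φ => Ψ φ t) θ * R θ t = 0) ∧
      (∀ t ∈ Ico 0 T,
        om (-L) t = 0 ∧ om L t = 0 ∧ R (-L) t = 0 ∧ R L t = 0 ∧
        derivWithin (fun φ => R φ t) (Icc (-L) L) (-L) = 0 ∧
        derivWithin (fun φ => R φ t) (Icc (-L) L) L = 0) ∧
      (∀ M : ℝ, ∃ t₀ ∈ Ico 0 T, ∀ t ∈ Ioo t₀ T, ∃ θ ∈ Ioo (-L) L,
          M < |om θ t| + Real.sqrt (R θ t ^ 2 + (deriv (fun φ => R φ t) θ) ^ 2)) := by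
  obtain ⟨d⟩ := exists_data
  obtain ⟨T, hT, x, h0, hx, hun⟩ := maximal trunc_F d.x0 Tb (fun τ x h0 hx => life h0 hx)
  have sh : ∀ t ∈ Ico 0 (T / 2), t + T / 2 ∈ Ioo 0 T := fun t ht =>
    ⟨by linarith [ht.1], by linarith [ht.2]⟩
  have shift : ∀ f : ℝ × ℝ → ℝ, ContDiffOn ℝ ∞ f (Icc (-L) L ×ˢ Ioo 0 T) →
      ContDiffOn ℝ ∞ (fun p : ℝ × ℝ => f (p.1, p.2 + T / 2)) (Icc (-L) L ×ˢ Ico 0 (T / 2)) :=
    fun f hf => hf.comp (f := fun p : ℝ × ℝ => (p.1, p.2 + T / 2)) (by fun_prop)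
      fun p hp => ⟨hp.1, sh _ hp.2⟩
  refine ⟨T / 2, fun θ t => Eu x gq θ (t + T / 2), fun θ t => Eu x Rq θ (t + T / 2),
    fun θ t => Eu x Vq θ (t + T / 2) / 2, by linarith, ?_, ?_, fun t ht => ?_,
    fun t ht θ hθ => ?_, fun t ht => ?_, fun M => ?_⟩
  · exact shift _ (joint hx h0 cd_gq Rel.gq_R (fun t ht θ hθ h => (far_E hx h0 ht hθ h).1)
      (fun t ht θ hθ h => (far_E' hx h0 ht hθ h).1))
  · exact shift _ (joint hx h0 cd_Rq Rel.Rq_R (fun t ht θ hθ h => (far_E hx h0 ht hθ h).2.1)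
      (fun t ht θ hθ h => (far_E' hx h0 ht hθ h).2.1))
  · have h1 := sh t ht
    have h2 := Ioo_subset_Ico_self h1
    have h3 : Eu x Vq L (t + T / 2) = 0 := by rw [Eu, α_L hx h0 h2, Vq_L hx h0 h2]
    refine ⟨Ψ_cd hx h0 h1, ?_, ?_, normal hx h0 h1, fun θ hθ => elliptic hx h0 h1 hθ⟩
    · simp only [Eu_Vq_neg hx h0 h2 mL, h3]; ring
    · simp only [h3]; ring
  · have h1 := sh t (Ioo_subset_Ico_self ht)
    rw [deriv_comp_add_const (fun s => Eu x gq θ s), deriv_comp_add_const (fun s => Eu x Rq θ s)]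
    exact ⟨pde1 hx h0 h1 hθ, pde2 hx h0 h1 hθ⟩
  · have h1 := sh t ht
    have e1 := ev1 hx h0 h1
    have e2 := ev2 hx h0 h1
    have v1 := e1.self_of_nhdsWithin mL
    have v2 := e2.self_of_nhdsWithin mL'
    refine ⟨v2.1, v1.1, v2.2.1, v1.2.1, ?_, ?_⟩
    · rw [Filter.EventuallyEq.derivWithin_eq (f := fun _ => 0) (e2.mono fun φ h => h.2.1) v2.2.1]
      simp
    · rw [Filter.EventuallyEq.derivWithin_eq (f := fun _ => 0) (e1.mono fun φ h => h.2.1) v1.2.1]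
      simp
  · obtain ⟨t1, ht1, h⟩ := blow hx h0 hun M
    refine ⟨max (t1 - T / 2) 0, ⟨le_max_right _ _, max_lt (by linarith [ht1.2]) (by linarith)⟩,
      fun t ht => ?_⟩
    obtain ⟨θ, hθ, h2⟩ := h (t + T / 2)
      ⟨by linarith [le_max_left (t1 - T / 2) 0, ht.1], by linarith [ht.2]⟩
    exact ⟨θ, hθ, h2.trans_le (le_add_of_nonneg_right (Real.sqrt_nonneg _))⟩

end

end Pool.Agent.H529Z.Bous
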